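import Mathlib
import Pool.Agent.Mg.S19600.G3216b3

set_option autoImplicit false

open Finset Filter Topology MeasureTheory ProbabilityTheory Real
open scoped NNReal ENNReal

namespace Pool.Agent.MP_ba6658_pr.Three

variable {Ω : Type} [MeasurableSpace Ω]

/-- A coordinate together with a rectangle `(s0, s1] × (t0, t1]`. -/
abbrev Rc : Type := Fin 3 × (ℝ × ℝ) × (ℝ × ℝ)

/-- Increment of the field over a rectangle. -/
def rect (W : Fin 3 → ℝ → ℝ → Ω → ℝ) (ρ : Rc) (ω : Ω) : ℝ :=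
  W ρ.1 ρ.2.1.2 ρ.2.2.2 ω - W ρ.1 ρ.2.1.2 ρ.2.2.1 ω - W ρ.1 ρ.2.1.1 ρ.2.2.2 ω
    + W ρ.1 ρ.2.1.1 ρ.2.2.1 ω

/-- The rectangle lies in the quadrant and is correctly ordered. -/
def Ok (ρ : Rc) : Prop := 0 ≤ ρ.2.1.1 ∧ ρ.2.1.1 ≤ ρ.2.1.2 ∧ 0 ≤ ρ.2.2.1 ∧ ρ.2.2.1 ≤ ρ.2.2.2

/-- Area of the rectangle. -/
def area (ρ : Rc) : ℝ := (ρ.2.1.2 - ρ.2.1.1) * (ρ.2.2.2 - ρ.2.2.1)

/-- Different coordinates or disjoint rectangles. -/
def Dj (ρ ρ' : Rc) : Prop := ρ.1 ≠ ρ'.1 ∨ ρ.2.1.2 ≤ ρ'.2.1.1 ∨ ρ'.2.1.2 ≤ ρ.2.1.1 ∨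
  ρ.2.2.2 ≤ ρ'.2.2.1 ∨ ρ'.2.2.2 ≤ ρ.2.2.1

/-- Length of the intersection of two intervals. -/
def br (a b : ℝ × ℝ) : ℝ := min a.2 b.2 - min a.2 b.1 - min a.1 b.2 + min a.1 b.1

/-- Covariance of two rectangular increments. -/
def cv3 (ρ ρ' : Rc) : ℝ := if ρ.1 = ρ'.1 then br ρ.2.1 ρ'.2.1 * br ρ.2.2 ρ'.2.2 else 0

/-- A measurable Brownian sheet in dimension three that vanishes on the axes. -/
structure Sheet3 (P : Measure Ω) (W : Fin 3 → ℝ → ℝ → Ω → ℝ) : Prop where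
  meas : ∀ i s t, 0 ≤ s → 0 ≤ t → Measurable (W i s t)
  law : ∀ (J : Type) [Fintype J] (idx : J → Fin 3) (s t c : J → ℝ), (∀ j, 0 ≤ s j) →
    (∀ j, 0 ≤ t j) → P.map (fun ω => ∑ j, c j * W (idx j) (s j) (t j) ω) = gaussianReal 0
      (∑ j, ∑ l, if idx j = idx l then c j * c l * (min (s j) (s l) * min (t j) (t l))
        else 0).toNNReal
  z1 : ∀ i t ω, W i 0 t ω = 0
  z2 : ∀ i s ω, W i s 0 ω = 0

lemma br_self {a : ℝ × ℝ} (h : a.1 ≤ a.2) : br a a = a.2 - a.1 := by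
  unfold br
  rw [min_self, min_self, min_eq_right h, min_eq_left h]
  ring

lemma br_zero {a b : ℝ × ℝ} (ha : a.1 ≤ a.2) (hb : b.1 ≤ b.2) (h : a.2 ≤ b.1 ∨ b.2 ≤ a.1) :
    br a b = 0 := by
  unfold br
  rcases h with h | h
  · rw [min_eq_left (by linarith), min_eq_left (by linarith), min_eq_left (by linarith),
      min_eq_left (by linarith)]
    ring
  · rw [min_eq_right (by linarith), min_eq_right (by linarith), min_eq_right (by linarith),
      min_eq_right (by linarith)]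
    ring

lemma area_nonneg {ρ : Rc} (h : Ok ρ) : 0 ≤ area ρ :=
  mul_nonneg (sub_nonneg.2 h.2.1) (sub_nonneg.2 h.2.2.2)

lemma cv3_self {ρ : Rc} (h : Ok ρ) : cv3 ρ ρ = area ρ := by
  unfold cv3 area
  rw [if_pos rfl, br_self h.2.1, br_self h.2.2.2]

lemma cv3_zero {ρ ρ' : Rc} (h : Ok ρ) (h' : Ok ρ') (hd : Dj ρ ρ') : cv3 ρ ρ' = 0 := by
  unfold cv3
  split_ifs with h1
  · rcases hd with hd | hd | hd | hd | hd
    · exact absurd h1 hd
    · rw [br_zero h.2.1 h'.2.1 (Or.inl hd), zero_mul]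
    · rw [br_zero h.2.1 h'.2.1 (Or.inr hd), zero_mul]
    · rw [br_zero h.2.2.2 h'.2.2.2 (Or.inl hd), mul_zero]
    · rw [br_zero h.2.2.2 h'.2.2.2 (Or.inr hd), mul_zero]
  · rfl

lemma Dj.symm {ρ ρ' : Rc} (h : Dj ρ ρ') : Dj ρ' ρ := by
  unfold Dj at h ⊢
  tauto

variable {P : Measure Ω} {W : Fin 3 → ℝ → ℝ → Ω → ℝ}

lemma Sheet3.rect_meas (h : Sheet3 P W) {ρ : Rc} (hρ : Ok ρ) : Measurable (rect W ρ) := by
  obtain ⟨h1, h2, h3, h4⟩ := hρ
  exact (((h.meas _ _ _ (h1.trans h2) (h3.trans h4)).sub (h.meas _ _ _ (h1.trans h2) h3)).sub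
    (h.meas _ _ _ h1 (h3.trans h4))).add (h.meas _ _ _ h1 h3)

lemma Sheet3.rect_law (h : Sheet3 P W) {J : Type} [Fintype J] (ρ : J → Rc) (hρ : ∀ j, Ok (ρ j))
    (c : J → ℝ) : P.map (fun ω => ∑ j, c j * rect W (ρ j) ω)
      = gaussianReal 0 (∑ j, ∑ l, c j * c l * cv3 (ρ j) (ρ l)).toNNReal := by
  have h1 := h.law ((J ⊕ J) ⊕ (J ⊕ J))
    (Sum.elim (Sum.elim (fun j => (ρ j).1) (fun j => (ρ j).1))
      (Sum.elim (fun j => (ρ j).1) (fun j => (ρ j).1)))
    (Sum.elim (Sum.elim (fun j => (ρ j).2.1.2) (fun j => (ρ j).2.1.2))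
      (Sum.elim (fun j => (ρ j).2.1.1) (fun j => (ρ j).2.1.1)))
    (Sum.elim (Sum.elim (fun j => (ρ j).2.2.2) (fun j => (ρ j).2.2.1))
      (Sum.elim (fun j => (ρ j).2.2.2) (fun j => (ρ j).2.2.1)))
    (Sum.elim (Sum.elim c (fun j => -c j)) (Sum.elim (fun j => -c j) c))
    (by
      rintro ((j | j) | (j | j))
      exacts [(hρ j).1.trans (hρ j).2.1, (hρ j).1.trans (hρ j).2.1, (hρ j).1, (hρ j).1])
    (by
      rintro ((j | j) | (j | j))
      exacts [(hρ j).2.2.1.trans (hρ j).2.2.2, (hρ j).2.2.1, (hρ j).2.2.1.trans (hρ j).2.2.2,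
        (hρ j).2.2.1])
  convert h1 using 2
  · funext ω
    simp only [Fintype.sum_sum_type, Sum.elim_inl, Sum.elim_inr, ← sum_add_distrib]
    refine sum_congr rfl fun j _ => ?_
    unfold rect
    ring
  · congr 1
    simp only [Fintype.sum_sum_type, Sum.elim_inl, Sum.elim_inr, ← sum_add_distrib]
    refine sum_congr rfl fun j _ => sum_congr rfl fun l _ => ?_
    unfold cv3 br
    by_cases hjl : (ρ j).1 = (ρ l).1
    · simp only [hjl, if_true]
      ring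
    · simp [hjl]

lemma Sheet3.rect_law1 (h : Sheet3 P W) {ρ : Rc} (hρ : Ok ρ) :
    P.map (rect W ρ) = gaussianReal 0 (area ρ).toNNReal := by
  have := h.rect_law (J := Unit) (fun _ => ρ) (fun _ => hρ) (fun _ => 1)
  simpa [cv3_self hρ] using this

lemma Sheet3.gp (h : Sheet3 P W) {T : Type} (ρ : T → Rc) (hρ : ∀ j, Ok (ρ j)) :
    IsGaussianProcess (fun j => rect W (ρ j)) P := by
  classical
  refine ⟨fun I => ⟨isGaussian_of_map_eq_gaussianReal fun L => ?_⟩⟩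
  have hm : Measurable (fun ω => I.restrict (fun j => rect W (ρ j) ω)) :=
    measurable_pi_lambda _ fun j => h.rect_meas (hρ j)
  rw [Measure.map_map L.continuous.measurable hm]
  refine ⟨0, _, Eq.trans ?_ (h.rect_law (J := I) (fun j => ρ j) (fun j => hρ j)
    (fun j => L (Pi.single j 1)))⟩
  congr 1
  funext ω
  simp only [Function.comp]
  rw [← L.sum_comp_single]
  refine sum_congr rfl fun j _ => ?_
  rw [mul_comm, ← smul_eq_mul, ← map_smul, ← Pi.single_smul, smul_eq_mul, mul_one]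
  rfl

lemma var_of_law [IsProbabilityMeasure P] {X : Ω → ℝ} (hX : Measurable X) {v : ℝ} (hv : 0 ≤ v)
    (h : P.map X = gaussianReal 0 v.toNNReal) : Var[X; P] = v := by
  have h1 := variance_map (X := id) (μ := P) (Y := X) (by fun_prop) hX.aemeasurable
  rw [h, variance_id_gaussianReal, Real.coe_toNNReal _ hv] at h1
  exact h1.symm

lemma Sheet3.cov_zero [IsProbabilityMeasure P] (h : Sheet3 P W) {ρ ρ' : Rc} (hρ : Ok ρ)
    (hρ' : Ok ρ') (hd : Dj ρ ρ') : cov[rect W ρ, rect W ρ'; P] = 0 := by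
  have g := h.gp (T := Bool) (fun b => if b then ρ else ρ') (fun b => by cases b <;> simpa)
  have m1 : MemLp (rect W ρ) 2 P := (g.hasGaussianLaw_eval true).memLp_two
  have m2 : MemLp (rect W ρ') 2 P := (g.hasGaussianLaw_eval false).memLp_two
  have h1 := h.rect_law (J := Bool) (fun b => if b then ρ else ρ') (fun b => by cases b <;> simpa)
    (fun _ => 1)
  simp only [Fintype.sum_bool, if_true, Bool.false_eq_true, if_false, one_mul, cv3_self hρ,
    cv3_self hρ', cv3_zero hρ hρ' hd, cv3_zero hρ' hρ hd.symm, add_zero, zero_add] at h1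
  have h2 := var_of_law ((h.rect_meas hρ).add (h.rect_meas hρ'))
    (add_nonneg (area_nonneg hρ) (area_nonneg hρ')) h1
  rw [variance_add m1 m2, var_of_law (h.rect_meas hρ) (area_nonneg hρ) (h.rect_law1 hρ),
    var_of_law (h.rect_meas hρ') (area_nonneg hρ') (h.rect_law1 hρ')] at h2
  linarith

lemma Sheet3.prod_indep [IsProbabilityMeasure P] (h : Sheet3 P W) {J : Type} [Fintype J]
    (ρ : J → Rc) (hρ : ∀ j, Ok (ρ j)) (hd : ∀ j l, j ≠ l → Dj (ρ j) (ρ l))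
    (f : J → ℝ → ℝ≥0∞) (hf : ∀ j, Measurable (f j)) :
    ∫⁻ ω, ∏ j, f j (rect W (ρ j) ω) ∂P
      = ∏ j, ∫⁻ x, f j x ∂(gaussianReal 0 (area (ρ j)).toNNReal) := by
  have g : HasGaussianLaw (fun ω j => rect W (ρ j) ω) P := by
    let L : ({j // j ∈ (univ : Finset J)} → ℝ) →L[ℝ] J → ℝ :=
      ContinuousLinearMap.pi fun j => ContinuousLinearMap.proj ⟨j, mem_univ j⟩
    exact ((h.gp ρ hρ).hasGaussianLaw univ).map L
  have hi : iIndepFun (fun j => rect W (ρ j)) P :=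
    g.iIndepFun_of_covariance_eq_zero fun j l hjl => h.cov_zero (hρ j) (hρ l) (hd j l hjl)
  rw [lintegral_prod_eq_prod_lintegral_of_indepFun univ (fun j ω => f j (rect W (ρ j) ω))
    (hi.comp f hf) (fun j => (hf j).comp (h.rect_meas (hρ j)))]
  refine prod_congr rfl fun j _ => ?_
  rw [← h.rect_law1 (hρ j), lintegral_map (hf j) (h.rect_meas (hρ j))]

/-- Conditioning on the past. -/
lemma Sheet3.cond [IsProbabilityMeasure P] (h : Sheet3 P W) {T J : Type} [Fintype J]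
    (τ : T → Rc) (hτ : ∀ j, Ok (τ j)) (ρ : J → Rc) (hρ : ∀ j, Ok (ρ j))
    (hd : ∀ j l, j ≠ l → Dj (ρ j) (ρ l)) (hd' : ∀ k j, Dj (τ k) (ρ j))
    (F : (T → ℝ) → ℝ≥0∞) (hF : Measurable F) (x : J → (T → ℝ) → ℝ) (hx : ∀ j, Measurable (x j))
    (φ : ℝ → ℝ≥0∞) (hφ : Measurable φ) :
    ∫⁻ ω, F (fun k => rect W (τ k) ω)
        * ∏ j, φ (x j (fun k => rect W (τ k) ω) + rect W (ρ j) ω) ∂P
      = ∫⁻ ω, F (fun k => rect W (τ k) ω) * ∏ j, ∫⁻ y, φ (x j (fun k => rect W (τ k) ω) + y)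
          ∂(gaussianReal 0 (area (ρ j)).toNNReal) ∂P := by
  have hX : Measurable (fun ω k => rect W (τ k) ω) :=
    measurable_pi_lambda _ fun k => h.rect_meas (hτ k)
  have hD : Measurable (fun ω j => rect W (ρ j) ω) :=
    measurable_pi_lambda _ fun k => h.rect_meas (hρ k)
  have g : IsGaussianProcess (Sum.elim (fun k => rect W (τ k)) (fun j => rect W (ρ j))) P := by
    have := h.gp (Sum.elim τ ρ) (fun j => by rcases j with j | j; exacts [hτ j, hρ j])
    convert this using 1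
    funext j
    rcases j with j | j <;> rfl
  have hi := (g.indepFun_of_covariance_eq_zero (fun k => (h.rect_meas (hτ k)).aemeasurable)
    (fun k => (h.rect_meas (hρ k)).aemeasurable)
    (fun k j => h.cov_zero (hτ k) (hρ j) (hd' k j))).map_prod_eq_prod_map_map
    hX.aemeasurable hD.aemeasurable
  have hG : Measurable (fun z : (T → ℝ) × (J → ℝ) => F z.1 * ∏ j, φ (x j z.1 + z.2 j)) := by
    refine (hF.comp measurable_fst).mul (Finset.measurable_prod _ fun j _ => hφ.comp ?_)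
    exact ((hx j).comp measurable_fst).add ((measurable_pi_apply j).comp measurable_snd)
  have hD' : IsProbabilityMeasure (P.map fun ω j => rect W (ρ j) ω) :=
    Measure.isProbabilityMeasure_map hD.aemeasurable
  have e1 := lintegral_map (μ := P) hG (hX.prodMk hD)
  rw [hi, lintegral_prod _ hG.aemeasurable, lintegral_map hG.lintegral_prod_right' hX] at e1
  refine e1.symm.trans (lintegral_congr fun ω => ?_)
  have hm : Measurable (fun y : J → ℝ => ∏ j, φ (x j (fun k => rect W (τ k) ω) + y j)) :=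
    Finset.measurable_prod _ fun j _ => hφ.comp (measurable_const.add (measurable_pi_apply j))
  simp only
  rw [lintegral_const_mul _ hm, lintegral_map hm hD,
    h.prod_indep ρ hρ hd (fun j y => φ (x j (fun k => rect W (τ k) ω) + y))
      (fun j => hφ.comp (measurable_const.add measurable_id))]

lemma lint_gauss {σ : ℝ} (hσ : 0 < σ) (f : ℝ → ℝ) (hf : Measurable f) :
    ∫⁻ y, ENNReal.ofReal (f y) ∂(gaussianReal 0 σ.toNNReal)
      = ∫⁻ y, ENNReal.ofReal ((√(2 * π * σ))⁻¹ * (exp (-y ^ 2 / (2 * σ)) * f y)) := by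
  have h1 : σ.toNNReal ≠ 0 := by simpa using hσ
  rw [gaussianReal_of_var_ne_zero _ h1,
    lintegral_withDensity_eq_lintegral_mul _ (measurable_gaussianPDF _ _) hf.ennreal_ofReal]
  refine lintegral_congr fun y => ?_
  simp only [Pi.mul_apply, gaussianPDF, gaussianPDFReal, Real.coe_toNNReal _ hσ.le, sub_zero]
  rw [← ENNReal.ofReal_mul (by positivity), mul_assoc]

lemma lint_exp_sq {b c : ℝ} (hb : 0 < b) (hc : 0 ≤ c) (x : ℝ) :
    ∫⁻ y : ℝ, ENNReal.ofReal (c * exp (-b * (x + y) ^ 2)) = ENNReal.ofReal (c * √(π / b)) := by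
  rw [lintegral_add_left_eq_self (fun y : ℝ => ENNReal.ofReal (c * exp (-b * y ^ 2))) x,
    ← ofReal_integral_eq_lintegral_ofReal ((integrable_exp_neg_mul_sq hb).const_mul c)
      (Eventually.of_forall fun y => by positivity), integral_const_mul, integral_gaussian]

lemma gauss_shift {σ : ℝ} (hσ : 0 < σ) {v : ℝ} (hv : 0 ≤ v) (x : ℝ) :
    ENNReal.ofReal (exp (-(x ^ 2 / σ)) / √(2 + v * σ))
      ≤ ∫⁻ y, ENNReal.ofReal (exp (-(v * (x + y) ^ 2) / 2)) ∂(gaussianReal 0 σ.toNNReal) := by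
  rw [lint_gauss hσ _ (by fun_prop)]
  have h1 := lint_exp_sq (b := v / 2 + 1 / σ) (c := (√(2 * π * σ))⁻¹ * exp (-(x ^ 2 / σ)))
    (by positivity) (by positivity) x
  refine le_trans (le_of_eq ?_) (h1.symm.trans_le (lintegral_mono fun y => ?_))
  · congr 1
    rw [mul_right_comm, mul_comm _ (exp _), div_eq_mul_inv, ← sqrt_inv, ← sqrt_inv,
      ← sqrt_mul (by positivity)]
    congr 2
    field_simp
    ring
  · refine ENNReal.ofReal_le_ofReal ?_
    rw [mul_assoc, ← exp_add, ← exp_add]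
    refine mul_le_mul_of_nonneg_left (exp_le_exp.2 ?_) (by positivity)
    have h2 : 0 ≤ (2 * x + y) ^ 2 / (2 * σ) := by positivity
    have h3 : -y ^ 2 / (2 * σ) + -(v * (x + y) ^ 2) / 2
        = -(x ^ 2 / σ) + -(v / 2 + 1 / σ) * (x + y) ^ 2 + (2 * x + y) ^ 2 / (2 * σ) := by
      field_simp
      ring
    linarith

lemma gauss_up {σ : ℝ} (hσ : 0 < σ) {v : ℝ} (hv : 0 < v) :
    ∫⁻ y, ENNReal.ofReal (exp (-(v * y ^ 2) / 2)) ∂(gaussianReal 0 σ.toNNReal)
      ≤ ENNReal.ofReal (√(v * σ))⁻¹ := by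
  rw [lint_gauss hσ _ (by fun_prop)]
  have h1 := lint_exp_sq (b := v / 2) (c := (√(2 * π * σ))⁻¹) (by positivity) (by positivity) 0
  refine le_trans (lintegral_mono fun y => ?_) (h1.trans_le (le_of_eq ?_))
  · refine ENNReal.ofReal_le_ofReal ?_
    rw [← exp_add]
    refine mul_le_mul_of_nonneg_left (exp_le_exp.2 ?_) (by positivity)
    have h2 : 0 ≤ y ^ 2 / (2 * σ) := by positivity
    rw [neg_div, zero_add]
    linarith
  · congr 1
    rw [← sqrt_inv, ← sqrt_inv, ← sqrt_mul (by positivity)]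
    congr 1
    field_simp

lemma gauss_sq {σ : ℝ} (hσ : 0 ≤ σ) {μ : ℝ} (h : μ * σ ≤ 1 / 4) :
    ∫⁻ y, ENNReal.ofReal (exp (μ * y ^ 2)) ∂(gaussianReal 0 σ.toNNReal) ≤ 2 := by
  rcases hσ.eq_or_lt with rfl | hσ
  · simp
  rw [lint_gauss hσ _ (by fun_prop)]
  have h1 := lint_exp_sq (b := 1 / (4 * σ)) (c := (√(2 * π * σ))⁻¹) (by positivity)
    (by positivity) 0
  refine le_trans (lintegral_mono fun y => ?_) (h1.trans_le ?_)
  · refine ENNReal.ofReal_le_ofReal ?_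
    rw [← exp_add]
    refine mul_le_mul_of_nonneg_left (exp_le_exp.2 ?_) (by positivity)
    have h2 : μ ≤ 1 / (4 * σ) := by rw [le_div_iff₀ (by positivity)]; linarith
    have h3 := mul_le_mul_of_nonneg_right h2 (sq_nonneg y)
    have h4 : -y ^ 2 / (2 * σ) = -(2 * (1 / (4 * σ) * y ^ 2)) := by field_simp; ring
    rw [zero_add]
    linarith
  · rw [← sqrt_inv, ← sqrt_mul (by positivity), ← ENNReal.ofReal_ofNat]
    refine ENNReal.ofReal_le_ofReal (sqrt_le_iff.2 ⟨by norm_num, ?_⟩)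
    have : (2 * π * σ)⁻¹ * (π / (1 / (4 * σ))) = 2 := by field_simp; ring
    rw [this]
    norm_num

/-- Polynomial tail bound for a rectangular increment. -/
lemma Sheet3.tail (h : Sheet3 P W) {ρ : Rc} (hρ : Ok ρ) {a x : ℝ} (ha : 0 < a)
    (hA : area ρ ≤ a) (hx : 0 < x) :
    P {ω | x < |rect W ρ ω|} ≤ ENNReal.ofReal (48 * (4 * a / x ^ 2) ^ 4) := by
  have hm : Measurable (fun y : ℝ => ENNReal.ofReal (exp (1 / (4 * a) * y ^ 2))) := by fun_prop
  have h1 : ∫⁻ ω, ENNReal.ofReal (exp (1 / (4 * a) * rect W ρ ω ^ 2)) ∂P ≤ 2 := by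
    rw [← lintegral_map hm (h.rect_meas hρ), h.rect_law1 hρ]
    refine gauss_sq (area_nonneg hρ) ?_
    rw [one_div_mul_eq_div, div_le_iff₀ (by positivity)]
    linarith
  set c : ℝ := (x ^ 2 / (4 * a)) ^ 4 / 24 with hc
  have hc0 : 0 < c := by positivity
  have h2 := mul_meas_ge_le_lintegral₀ (μ := P) (hm.comp (h.rect_meas hρ)).aemeasurable
    (ENNReal.ofReal c)
  have h3 : P {ω | x < |rect W ρ ω|} ≤ P {ω | ENNReal.ofReal c ≤
      ((fun y : ℝ => ENNReal.ofReal (exp (1 / (4 * a) * y ^ 2))) ∘ rect W ρ) ω} := by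
    refine measure_mono fun ω hω => ENNReal.ofReal_le_ofReal ?_
    have h4 : x ^ 2 ≤ rect W ρ ω ^ 2 := by
      rw [← sq_abs (rect W ρ ω)]
      exact pow_le_pow_left₀ hx.le (le_of_lt hω) 2
    have h5 := Real.pow_div_factorial_le_exp (x := x ^ 2 / (4 * a)) (by positivity) 4
    refine le_trans (le_of_eq ?_) (h5.trans (exp_le_exp.2 ?_))
    · rw [hc]; norm_num [Nat.factorial]
    · rw [one_div_mul_eq_div]
      exact div_le_div_of_nonneg_right h4 (by positivity)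
  have h4 : ENNReal.ofReal c * P {ω | x < |rect W ρ ω|} ≤ 2 :=
    (mul_le_mul_right h3 _).trans (h2.trans h1)
  have h5 : 48 * (4 * a / x ^ 2) ^ 4 = 2 / c := by rw [hc]; field_simp; ring
  rw [h5, ENNReal.ofReal_div_of_pos hc0, ENNReal.le_div_iff_mul_le (Or.inl (by simpa using hc0))
    (Or.inl ENNReal.ofReal_ne_top), mul_comm, ENNReal.ofReal_ofNat]
  exact h4

end Pool.Agent.MP_ba6658_pr.Three
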