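import Mathlib
import Pool.Agent.MP_ba6658_pr.Three.A

set_option autoImplicit false

open Finset Filter Topology MeasureTheory ProbabilityTheory Real
open scoped NNReal ENNReal

namespace Pool.Agent.MP_ba6658_pr.Three

variable {Ω : Type} [MeasurableSpace Ω] {P : Measure Ω} {W : Fin 3 → ℝ → ℝ → Ω → ℝ}

lemma hardy (b : ℕ → ℝ) (h0 : b 0 = 0) (n : ℕ) :
    ∑ k ∈ range n, b (k + 1) ^ 2 / 2 ^ k + 6 * (b n ^ 2 / 2 ^ n)
      ≤ 12 * ∑ k ∈ range n, (b (k + 1) - b k) ^ 2 / 2 ^ k := by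
  induction n with
  | zero => simp [h0]
  | succ n ih =>
    rw [sum_range_succ, sum_range_succ]
    have h1 : 4 * b (n + 1) ^ 2 ≤ 12 * (b (n + 1) - b n) ^ 2 + 6 * b n ^ 2 := by
      nlinarith [sq_nonneg (2 * b (n + 1) - 3 * b n)]
    have h2 := div_le_div_of_nonneg_right h1 (show (0 : ℝ) ≤ 2 ^ n by positivity)
    have h3 : 6 * (b (n + 1) ^ 2 / 2 ^ (n + 1)) = 3 * (b (n + 1) ^ 2 / 2 ^ n) := by
      rw [pow_succ]; field_simp; ring
    rw [add_div, mul_div_assoc, mul_div_assoc, mul_div_assoc] at h2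
    rw [h3]
    linarith

lemma Sheet3.seq_moment [IsProbabilityMeasure P] (h : Sheet3 P W) (i : Fin 3) {R S T r : ℝ}
    (hR : 0 < R) (hS0 : 0 ≤ S) (hS : S ≤ R) (hT : 0 ≤ T) (hr : 0 < r) (U : ℕ → ℝ)
    (hU : Monotone U) (hU0 : U 0 = 0) (hU1 : ∀ k, U (k + 1) ≤ 2 * (2 ^ k * r)) (n : ℕ) :
    ∫⁻ ω, ENNReal.ofReal (∏ k : Fin n, exp (1 / (96 * R) *
      ((W i S (T + U (k + 1)) ω - W i S T ω) ^ 2 / (2 ^ k.1 * r)))) ∂P ≤ 2 ^ n := by
  have hUn : ∀ k, 0 ≤ U k := fun k => hU0 ▸ hU (Nat.zero_le k)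
  set ρ : Fin n → Rc := fun k => (i, (0, S), (T + U k, T + U (k + 1))) with hρ
  have hok : ∀ k, Ok (ρ k) := fun k =>
    ⟨le_rfl, hS0, add_nonneg hT (hUn _), add_le_add_right (hU (Nat.le_succ _)) _⟩
  have h1 := h.prod_indep ρ hok (fun j l hjl => by
      rcases lt_or_gt_of_ne hjl with h2 | h2
      · exact Or.inr (Or.inr (Or.inr (Or.inl (add_le_add_right (hU h2) _))))
      · exact Or.inr (Or.inr (Or.inr (Or.inr (add_le_add_right (hU h2) _)))))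
    (fun k x => ENNReal.ofReal (exp (1 / (8 * R * (2 ^ k.1 * r)) * x ^ 2))) (fun k => by fun_prop)
  refine le_trans (lintegral_mono fun ω => ?_) (h1.trans_le ?_)
  · rw [← ENNReal.ofReal_prod_of_nonneg (fun _ _ => (exp_pos _).le)]
    refine ENNReal.ofReal_le_ofReal ?_
    rw [← exp_sum, ← exp_sum, exp_le_exp]
    set b : ℕ → ℝ := fun k => W i S (T + U k) ω - W i S T ω with hb
    have h2 := hardy b (by simp [hb, hU0]) n
    have h3 : ∑ k : Fin n, 1 / (96 * R) * ((W i S (T + U (k + 1)) ω - W i S T ω) ^ 2 / (2 ^ k.1 * r))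
        = 1 / (96 * R * r) * ∑ k ∈ range n, b (k + 1) ^ 2 / 2 ^ k := by
      rw [mul_sum, ← Fin.sum_univ_eq_sum_range (fun k => 1 / (96 * R * r) * (b (k + 1) ^ 2 / 2 ^ k))]
      refine sum_congr rfl fun k _ => ?_
      simp only [hb]
      field_simp
    have h4 : ∑ k : Fin n, 1 / (8 * R * (2 ^ k.1 * r)) * rect W (ρ k) ω ^ 2
        = 1 / (96 * R * r) * (12 * ∑ k ∈ range n, (b (k + 1) - b k) ^ 2 / 2 ^ k) := by
      rw [mul_sum, mul_sum, ← Fin.sum_univ_eq_sum_range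
        (fun k => 1 / (96 * R * r) * (12 * ((b (k + 1) - b k) ^ 2 / 2 ^ k)))]
      refine sum_congr rfl fun k _ => ?_
      simp only [hb, hρ, rect, h.z1]
      field_simp
      ring
    rw [h3, h4]
    refine mul_le_mul_of_nonneg_left ?_ (by positivity)
    have : 0 ≤ b n ^ 2 / 2 ^ n := by positivity
    linarith
  · refine (prod_le_prod' fun k _ => gauss_sq (area_nonneg (hok k)) ?_).trans (by simp)
    simp only [hρ, area]
    rw [one_div_mul_eq_div, div_le_iff₀ (by positivity)]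
    have h2 := hU1 k
    have h3 := hUn k
    have h4 : (0 : ℝ) < 2 ^ k.1 * r := by positivity
    nlinarith [mul_le_mul hS (show T + U (k + 1) - (T + U k) ≤ 2 * (2 ^ k.1 * r) by linarith)
      (by linarith [hU (Nat.le_succ k.1)]) hR.le]

/-- Values of the field on a grid of mesh `η`. -/
def grid (W : Fin 3 → ℝ → ℝ → Ω → ℝ) (η : ℝ) (ω : Ω) (z : Fin 3 × ℕ × ℕ) : ℝ :=
  W z.1 (z.2.1 * η) (z.2.2 * η) ω

/-- The dyadic shell of exponent `e`. -/
def sh (e : ℕ) : Finset ℕ := Ico (2 ^ e) (2 ^ (e + 1))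

lemma card_sh (e : ℕ) : #(sh e) = 2 ^ e := by
  unfold sh
  rw [Nat.card_Ico, pow_succ]
  omega

lemma sum_sh (e : ℕ) : ∑ _β ∈ sh e, (1 / 2 ^ e : ℝ) = 1 := by
  rw [sum_const, card_sh, nsmul_eq_mul]
  push_cast
  field_simp

/-- Averaged normalised oscillation over `n` dyadic scales. -/
noncomputable def Xi (η : ℝ) (e0 n : ℕ) (w : Fin 3 × ℕ × ℕ → ℝ) (i : Fin 3) (a b : ℕ) : ℝ :=
  ∑ k : Fin n, ∑ β ∈ sh (e0 + k), 1 / 2 ^ (e0 + k.1) *
    ((w (i, a, b + β) - w (i, a, b)) ^ 2 / (2 ^ (e0 + k.1) * η))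

lemma Sheet3.grid_meas (h : Sheet3 P W) {η : ℝ} (hη : 0 < η) : Measurable (grid W η) :=
  measurable_pi_lambda _ fun _ => h.meas _ _ _ (by positivity) (by positivity)

lemma Xi_meas (η : ℝ) (e0 n : ℕ) (i : Fin 3) (a b : ℕ) :
    Measurable (fun w => Xi η e0 n w i a b) := by
  unfold Xi
  fun_prop

lemma Sheet3.Xi_moment [IsProbabilityMeasure P] (h : Sheet3 P W) {R η : ℝ} (hR : 0 < R)
    (hη : 0 < η) (e0 n : ℕ) (i : Fin 3) {a : ℕ} (ha : a * η ≤ R) (b : ℕ) :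
    ∫⁻ ω, ENNReal.ofReal (exp (1 / (96 * R) * Xi η e0 n (grid W η ω) i a b)) ∂P ≤ 2 ^ n := by
  set y : Ω → Fin n → ℕ → ℝ := fun ω k β => 1 / (96 * R) *
    ((grid W η ω (i, a, b + β) - grid W η ω (i, a, b)) ^ 2 / (2 ^ (e0 + k.1) * η)) with hy
  have hg := h.grid_meas hη
  have hym : ∀ k β, Measurable (fun ω => y ω k β) := fun k β => by
    have h1 := (measurable_pi_apply (i, a, b + β)).comp hg
    have h2 := (measurable_pi_apply (i, a, b)).comp hg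
    exact (((h1.sub h2).pow_const 2).div_const _).const_mul _
  set c : ℝ := ∏ k : Fin n, (1 / 2 ^ (e0 + k.1) : ℝ) with hc
  have hc0 : 0 ≤ c := prod_nonneg fun _ _ => by positivity
  have h1 : ∀ ω, ENNReal.ofReal (exp (1 / (96 * R) * Xi η e0 n (grid W η ω) i a b))
      ≤ ∑ p ∈ Fintype.piFinset (fun k : Fin n => sh (e0 + k)),
        ENNReal.ofReal c * ENNReal.ofReal (∏ k : Fin n, exp (y ω k (p k))) := by
    intro ω
    simp_rw [← ENNReal.ofReal_mul hc0]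
    rw [← ENNReal.ofReal_sum_of_nonneg fun p _ =>
      mul_nonneg hc0 (prod_nonneg fun _ _ => (exp_pos _).le)]
    refine ENNReal.ofReal_le_ofReal ?_
    simp_rw [hc, ← prod_mul_distrib]
    rw [← prod_univ_sum (fun k : Fin n => sh (e0 + k))
      (fun k β => (1 / 2 ^ (e0 + k.1) : ℝ) * exp (y ω k β))]
    unfold Xi
    rw [mul_sum, exp_sum]
    refine prod_le_prod (fun _ _ => (exp_pos _).le) fun k _ => ?_
    have h2 := convexOn_exp.map_sum_le (t := sh (e0 + k)) (w := fun _ => (1 / 2 ^ (e0 + k.1) : ℝ))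
      (p := fun β => y ω k β) (fun _ _ => by positivity) (sum_sh _) (fun _ _ => Set.mem_univ _)
    simp only [smul_eq_mul] at h2
    refine le_trans (le_of_eq ?_) h2
    congr 1
    rw [mul_sum]
    refine sum_congr rfl fun β _ => ?_
    simp only [hy]
    ring
  refine (lintegral_mono h1).trans ?_
  rw [lintegral_finsetSum _ fun p _ => (Finset.measurable_prod _ fun k _ =>
    (hym k (p k)).exp).ennreal_ofReal.const_mul _]
  have h2 : ∀ p ∈ Fintype.piFinset (fun k : Fin n => sh (e0 + k)),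
      ∫⁻ ω, ENNReal.ofReal c * ENNReal.ofReal (∏ k : Fin n, exp (y ω k (p k))) ∂P
        ≤ ENNReal.ofReal c * 2 ^ n := by
    intro p hp
    rw [lintegral_const_mul' _ _ ENNReal.ofReal_ne_top]
    refine mul_le_mul_right ?_ _
    set q : ℕ → ℕ := fun k => if hk : k < n then p ⟨k, hk⟩ else 2 ^ (e0 + k) with hq
    have hq1 : ∀ k, 2 ^ (e0 + k) ≤ q k ∧ q k < 2 ^ (e0 + k + 1) := by
      intro k
      simp only [hq]
      split_ifs with hk
      · exact mem_Ico.1 (Fintype.mem_piFinset.1 hp ⟨k, hk⟩)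
      · exact ⟨le_rfl, Nat.pow_lt_pow_right (by norm_num) (by omega)⟩
    have h3 := h.seq_moment i hR (S := a * η) (by positivity) ha (T := b * η) (by positivity)
      (r := 2 ^ e0 * η) (by positivity) (fun k => Nat.casesOn k 0 (fun k => q k * η))
      (monotone_nat_of_le_succ fun k => by
        cases k with
        | zero => show (0 : ℝ) ≤ q 0 * η; positivity
        | succ k =>
          show (q k : ℝ) * η ≤ q (k + 1) * η
          exact mul_le_mul_of_nonneg_right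
            (by exact_mod_cast (hq1 k).2.le.trans (hq1 (k + 1)).1) hη.le)
      rfl (fun k => by
        show (q k : ℝ) * η ≤ _
        have h4 : (q k : ℝ) ≤ 2 ^ (e0 + k + 1) := by exact_mod_cast (hq1 k).2.le
        calc (q k : ℝ) * η ≤ 2 ^ (e0 + k + 1) * η := mul_le_mul_of_nonneg_right h4 hη.le
          _ = _ := by ring) n
    refine le_trans (le_of_eq (lintegral_congr fun ω => ?_)) h3
    congr 1
    refine prod_congr rfl fun k _ => ?_
    simp only [hy, grid, hq, dif_pos k.2]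
    push_cast
    ring_nf
  refine (sum_le_sum h2).trans (le_of_eq ?_)
  rw [← sum_mul, ← ENNReal.ofReal_sum_of_nonneg fun _ _ => hc0, hc,
    ← prod_univ_sum (fun k : Fin n => sh (e0 + k)) (fun k _ => (1 / 2 ^ (e0 + k.1) : ℝ))]
  simp only [sum_sh, prod_const_one, ENNReal.ofReal_one, one_mul]

/-- Every grid point has small averaged oscillation. -/
def Good3 (R η : ℝ) (e0 n N : ℕ) (w : Fin 3 × ℕ × ℕ → ℝ) : Prop :=
  ∀ i, ∀ a < N, ∀ b < N, Xi η e0 n w i a b ≤ 98304 * R * n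

lemma Sheet3.good_prob [IsProbabilityMeasure P] (h : Sheet3 P W) {R η : ℝ} (hR : 0 < R)
    (hη : 0 < η) (e0 n : ℕ) {N : ℕ} (hN : N * η ≤ R) :
    P {ω | ¬ Good3 R η e0 n N (grid W η ω)} ≤ ENNReal.ofReal (3 * N ^ 2 * (1 / 512) ^ n) := by
  have h1 : ∀ z ∈ (univ : Finset (Fin 3)) ×ˢ range N ×ˢ range N,
      P {ω | 98304 * R * n < Xi η e0 n (grid W η ω) z.1 z.2.1 z.2.2}
        ≤ ENNReal.ofReal ((1 / 512) ^ n) := by
    rintro ⟨i, a, b⟩ hz
    simp only [mem_product, mem_range] at hz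
    have ha : a * η ≤ R := le_trans (mul_le_mul_of_nonneg_right
      (by exact_mod_cast hz.2.1.le) hη.le) hN
    have hm : Measurable (fun ω =>
        ENNReal.ofReal (exp (1 / (96 * R) * Xi η e0 n (grid W η ω) i a b))) :=
      (measurable_exp.comp (((Xi_meas η e0 n i a b).comp (h.grid_meas hη)).const_mul
        _)).ennreal_ofReal
    have h2 := (mul_meas_ge_le_lintegral₀ (μ := P) hm.aemeasurable
      (ENNReal.ofReal (1024 ^ n))).trans (h.Xi_moment hR hη e0 n i ha b)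
    have h3 : P {ω | 98304 * R * n < Xi η e0 n (grid W η ω) i a b} ≤ P {ω |
        ENNReal.ofReal (1024 ^ n) ≤
          ENNReal.ofReal (exp (1 / (96 * R) * Xi η e0 n (grid W η ω) i a b))} := by
      refine measure_mono fun ω hω => ENNReal.ofReal_le_ofReal ?_
      have h4 : (1024 : ℝ) ^ n ≤ exp 1024 ^ n :=
        pow_le_pow_left₀ (by norm_num) (by linarith [add_one_le_exp (1024 : ℝ)]) n
      refine h4.trans ?_
      rw [← exp_nat_mul, exp_le_exp, one_div_mul_eq_div, le_div_iff₀ (by positivity)]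
      have : 98304 * R * n < _ := hω
      linarith
    have h5 := (mul_le_mul_right h3 _).trans h2
    have h6 : (1 / 512 : ℝ) ^ n = 2 ^ n / 1024 ^ n := by rw [← div_pow]; norm_num
    rw [h6, ENNReal.ofReal_div_of_pos (by positivity), ENNReal.le_div_iff_mul_le
      (Or.inl (by simp)) (Or.inl ENNReal.ofReal_ne_top), mul_comm,
      ENNReal.ofReal_pow (p := 2) (by norm_num), ENNReal.ofReal_ofNat]
    exact h5
  have h2 : {ω | ¬ Good3 R η e0 n N (grid W η ω)} ⊆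
      ⋃ z ∈ (univ : Finset (Fin 3)) ×ˢ range N ×ˢ range N,
        {ω | 98304 * R * n < Xi η e0 n (grid W η ω) z.1 z.2.1 z.2.2} := by
    intro ω hω
    simp only [Good3, Set.mem_ofPred_eq, not_forall, not_le] at hω
    obtain ⟨i, a, ha, b, hb, hlt⟩ := hω
    exact Set.mem_biUnion (x := (i, a, b)) (by simp [ha, hb]) hlt
  refine (measure_mono h2).trans ((measure_biUnion_finset_le _ _).trans
    ((sum_le_sum h1).trans (le_of_eq ?_)))
  rw [sum_const, nsmul_eq_mul, ← ENNReal.ofReal_natCast, ← ENNReal.ofReal_mul (by positivity)]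
  congr 2
  simp
  ring

/-- Dyadic neighbours of level `l` have close values. -/
def Close (R : ℕ) (l : ℕ) (f : ℝ → ℝ → ℝ) : Prop :=
  ∀ a ≤ R * 2 ^ l, ∀ b ≤ R * 2 ^ l,
    |f ((a + 1 : ℕ) / 2 ^ l) (b / 2 ^ l) - f (a / 2 ^ l) (b / 2 ^ l)| ≤ (7 / 8) ^ l ∧
    |f (a / 2 ^ l) ((b + 1 : ℕ) / 2 ^ l) - f (a / 2 ^ l) (b / 2 ^ l)| ≤ (7 / 8) ^ l

lemma floor_step {s : ℝ} (hs : 0 ≤ s) (l : ℕ) :
    ⌊s * 2 ^ (l + 1)⌋₊ = 2 * ⌊s * 2 ^ l⌋₊ ∨ ⌊s * 2 ^ (l + 1)⌋₊ = 2 * ⌊s * 2 ^ l⌋₊ + 1 := by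
  have h0 : 0 ≤ s * 2 ^ l := by positivity
  have h1 := Nat.floor_le h0
  have h2 := Nat.lt_floor_add_one (s * 2 ^ l)
  have e : s * 2 ^ (l + 1) = 2 * (s * 2 ^ l) := by ring
  have h3 : 2 * ⌊s * 2 ^ l⌋₊ ≤ ⌊s * 2 ^ (l + 1)⌋₊ := Nat.le_floor (by push_cast; linarith)
  have h4 : ⌊s * 2 ^ (l + 1)⌋₊ < 2 * ⌊s * 2 ^ l⌋₊ + 2 :=
    (Nat.floor_lt (by positivity)).2 (by push_cast; linarith)
  omega

lemma floor_le_box {s : ℝ} {R : ℕ} (hs : s ≤ R) (l : ℕ) : ⌊s * 2 ^ l⌋₊ ≤ R * 2 ^ l :=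
  Nat.floor_le_of_le (by push_cast; exact mul_le_mul_of_nonneg_right hs (by positivity))

lemma chain {R m : ℕ} {f : ℝ → ℝ → ℝ} (hf : ∀ l, m < l → Close R l f) {s t : ℝ} (hs0 : 0 ≤ s)
    (hs : s ≤ R) (ht0 : 0 ≤ t) (ht : t ≤ R)
    (hc : ContinuousAt (fun z : ℝ × ℝ => f z.1 z.2) (s, t)) :
    |f s t - f (⌊s * 2 ^ m⌋₊ / 2 ^ m) (⌊t * 2 ^ m⌋₊ / 2 ^ m)| ≤ 14 * (7 / 8) ^ m := by
  set g : ℕ → ℝ := fun l => f (⌊s * 2 ^ l⌋₊ / 2 ^ l) (⌊t * 2 ^ l⌋₊ / 2 ^ l) with hg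
  have hstep : ∀ l, m ≤ l → |g (l + 1) - g l| ≤ 2 * (7 / 8) ^ (l + 1) := by
    intro l hl
    have hC := hf (l + 1) (by omega)
    have e : ∀ a : ℕ, (a : ℝ) / 2 ^ l = ((2 * a : ℕ) : ℝ) / 2 ^ (l + 1) := by
      intro a; push_cast; rw [pow_succ]; field_simp
    have hp : (0 : ℝ) ≤ (7 / 8) ^ (l + 1) := by positivity
    have ha := floor_le_box hs (l + 1)
    have hb := floor_le_box ht (l + 1)
    simp only [hg]
    rw [e ⌊s * 2 ^ l⌋₊, e ⌊t * 2 ^ l⌋₊]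
    have h1 : |f (⌊s * 2 ^ (l + 1)⌋₊ / 2 ^ (l + 1)) (⌊t * 2 ^ (l + 1)⌋₊ / 2 ^ (l + 1))
        - f ((2 * ⌊s * 2 ^ l⌋₊ : ℕ) / 2 ^ (l + 1)) (⌊t * 2 ^ (l + 1)⌋₊ / 2 ^ (l + 1))|
        ≤ (7 / 8) ^ (l + 1) := by
      rcases floor_step hs0 l with h | h
      · rw [h]; simpa using hp
      · rw [h]; exact (hC _ (by omega) _ hb).1
    have h2 : |f ((2 * ⌊s * 2 ^ l⌋₊ : ℕ) / 2 ^ (l + 1)) (⌊t * 2 ^ (l + 1)⌋₊ / 2 ^ (l + 1))
        - f ((2 * ⌊s * 2 ^ l⌋₊ : ℕ) / 2 ^ (l + 1)) ((2 * ⌊t * 2 ^ l⌋₊ : ℕ) / 2 ^ (l + 1))|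
        ≤ (7 / 8) ^ (l + 1) := by
      have := floor_step hs0 l
      rcases floor_step ht0 l with h | h
      · rw [h]; simpa using hp
      · rw [h]; exact (hC _ (by omega) _ (by omega)).2
    exact (abs_sub_le _ _ _).trans ((add_le_add h1 h2).trans (le_of_eq (by ring)))
  have hsum : ∀ l, m ≤ l → |g l - g m| ≤ 14 * (7 / 8) ^ m - 14 * (7 / 8) ^ l := by
    intro l hl
    induction l, hl using Nat.le_induction with
    | base => simp
    | succ l hl ih =>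
      have h1 := abs_sub_le (g (l + 1)) (g l) (g m)
      have h2 := hstep l hl
      rw [pow_succ] at h2 ⊢
      linarith
  have hlim : ∀ {a : ℝ}, 0 ≤ a →
      Tendsto (fun l : ℕ => (⌊a * 2 ^ l⌋₊ : ℝ) / 2 ^ l) atTop (𝓝 a) := fun ha =>
    (tendsto_nat_floor_mul_div_atTop ha).comp
      (tendsto_pow_atTop_atTop_of_one_lt (by norm_num : (1 : ℝ) < 2))
  have h1 : Tendsto g atTop (𝓝 (f s t)) := hc.tendsto.comp ((hlim hs0).prodMk_nhds (hlim ht0))
  refine le_of_tendsto ((h1.sub_const (g m)).abs) ?_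
  filter_upwards [eventually_ge_atTop m] with l hl
  have : (0 : ℝ) ≤ (7 / 8) ^ l := by positivity
  linarith [hsum l hl]

lemma Sheet3.close_prob (h : Sheet3 P W) {R : ℕ} (hR : 1 ≤ R) (l : ℕ) :
    P {ω | ¬ ∀ i, Close R l (fun s t => W i s t ω)}
      ≤ ENNReal.ofReal (294912 * R ^ 6 * (3 / 4) ^ l) := by
  have hR' : (1 : ℝ) ≤ R := by exact_mod_cast hR
  set ρ1 : Fin 3 × ℕ × ℕ → Rc := fun z =>
    (z.1, (z.2.1 / 2 ^ l, (z.2.1 + 1 : ℕ) / 2 ^ l), (0, z.2.2 / 2 ^ l)) with h1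
  set ρ2 : Fin 3 × ℕ × ℕ → Rc := fun z =>
    (z.1, (0, z.2.1 / 2 ^ l), (z.2.2 / 2 ^ l, (z.2.2 + 1 : ℕ) / 2 ^ l)) with h2
  set c : ℝ := 48 * (4 * (R / 2 ^ l) / ((7 / 8) ^ l) ^ 2) ^ 4 with hc
  have hle : ∀ a : ℕ, (a : ℝ) / 2 ^ l ≤ (a + 1 : ℕ) / 2 ^ l := fun a =>
    div_le_div_of_nonneg_right (by push_cast; linarith) (by positivity)
  have hsub : ∀ a : ℕ, ((a + 1 : ℕ) : ℝ) / 2 ^ l - a / 2 ^ l = 1 / 2 ^ l := fun a => by
    push_cast; ring
  have hb : ∀ a : ℕ, a < R * 2 ^ l + 1 → (a : ℝ) / 2 ^ l ≤ R := fun a ha => by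
    rw [div_le_iff₀ (by positivity)]
    exact_mod_cast Nat.lt_succ_iff.1 ha
  have h3 : ∀ z ∈ (univ : Finset (Fin 3)) ×ˢ range (R * 2 ^ l + 1) ×ˢ range (R * 2 ^ l + 1),
      P ({ω | (7 / 8) ^ l < |rect W (ρ1 z) ω|} ∪ {ω | (7 / 8) ^ l < |rect W (ρ2 z) ω|})
        ≤ ENNReal.ofReal (2 * c) := by
    rintro ⟨i, a, b⟩ hz
    simp only [mem_product, mem_range] at hz
    refine (measure_union_le _ _).trans ?_
    rw [two_mul, ENNReal.ofReal_add (by positivity) (by positivity)]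
    refine add_le_add (h.tail ⟨by positivity, hle _, le_rfl, by positivity⟩ (by positivity) ?_
      (by positivity)) (h.tail ⟨le_rfl, by positivity, by positivity, hle _⟩ (by positivity) ?_
      (by positivity))
    · simp only [h1, area, hsub, sub_zero]
      rw [one_div_mul_eq_div]
      exact div_le_div_of_nonneg_right (hb b hz.2.2) (by positivity)
    · simp only [h2, area, hsub, sub_zero]
      rw [mul_one_div]
      exact div_le_div_of_nonneg_right (hb a hz.2.1) (by positivity)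
  have h4 : {ω | ¬ ∀ i, Close R l (fun s t => W i s t ω)} ⊆
      ⋃ z ∈ (univ : Finset (Fin 3)) ×ˢ range (R * 2 ^ l + 1) ×ˢ range (R * 2 ^ l + 1),
        ({ω | (7 / 8) ^ l < |rect W (ρ1 z) ω|} ∪ {ω | (7 / 8) ^ l < |rect W (ρ2 z) ω|}) := by
    intro ω hω
    simp only [Close, Set.mem_ofPred_eq, not_forall, not_and_or, not_le] at hω
    obtain ⟨i, a, ha, b, hb, hlt⟩ := hω
    refine Set.mem_biUnion (x := (i, a, b)) (by simp [ha, hb]) ?_
    simpa only [Set.mem_union, Set.mem_ofPred_eq, h1, h2, rect, h.z1, h.z2, sub_zero,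
      add_zero] using hlt
  refine (measure_mono h4).trans ((measure_biUnion_finset_le _ _).trans
    ((sum_le_sum h3).trans ?_))
  rw [sum_const, nsmul_eq_mul, ← ENNReal.ofReal_natCast, ← ENNReal.ofReal_mul (by positivity)]
  refine ENNReal.ofReal_le_ofReal ?_
  simp only [card_product, card_univ, Fintype.card_fin, card_range]
  push_cast
  have h5 : (R : ℝ) * 2 ^ l + 1 ≤ 2 * R * 2 ^ l := by
    have : (1 : ℝ) ≤ R * 2 ^ l := one_le_mul_of_one_le_of_one_le hR' (one_le_pow₀ (by norm_num))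
    linarith
  have h6 := mul_le_mul h5 h5 (by positivity) (by positivity)
  have h7 : c = 48 * 256 * R ^ 4 * (1 / (16 * (7 / 8) ^ 8)) ^ l := by
    have e1 : ((2 : ℝ) ^ l) ^ 4 = 16 ^ l := by rw [← pow_mul, mul_comm, pow_mul]; norm_num
    have e2 : (((7 / 8 : ℝ) ^ l) ^ 2) ^ 4 = ((7 / 8) ^ 8) ^ l := by
      rw [← pow_mul, ← pow_mul, ← pow_mul]; congr 1; ring
    rw [hc, div_pow, mul_pow, div_pow, e1, e2, one_div, inv_pow, mul_pow]
    field_simp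
    norm_num
  have h8 : (2 : ℝ) ^ l * 2 ^ l * (1 / (16 * (7 / 8) ^ 8)) ^ l ≤ (3 / 4) ^ l := by
    rw [← mul_pow, ← mul_pow]
    exact pow_le_pow_left₀ (by positivity) (by norm_num) l
  calc 3 * (((R : ℝ) * 2 ^ l + 1) * (R * 2 ^ l + 1)) * (2 * c)
      ≤ 3 * (2 * R * 2 ^ l * (2 * R * 2 ^ l)) * (2 * c) :=
        mul_le_mul_of_nonneg_right (by linarith) (by positivity)
    _ = 294912 * R ^ 6 * (2 ^ l * 2 ^ l * (1 / (16 * (7 / 8) ^ 8)) ^ l) := by rw [h7]; ring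
    _ ≤ _ := mul_le_mul_of_nonneg_left h8 (by positivity)

lemma Sheet3.mod_prob (h : Sheet3 P W) {R : ℕ} (hR : 1 ≤ R) (m : ℕ) :
    P {ω | ¬ ∀ i, ∀ l, m < l → Close R l (fun s t => W i s t ω)}
      ≤ ENNReal.ofReal (4 * 294912 * R ^ 6 * (3 / 4) ^ m) := by
  have h1 : {ω | ¬ ∀ i, ∀ l, m < l → Close R l (fun s t => W i s t ω)} ⊆
      ⋃ k : ℕ, {ω | ¬ ∀ i, Close R (m + k) (fun s t => W i s t ω)} := by
    intro ω hω
    simp only [Set.mem_ofPred_eq, not_forall] at hω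
    obtain ⟨i, l, hl, h2⟩ := hω
    obtain ⟨k, rfl⟩ := Nat.exists_eq_add_of_le hl.le
    exact Set.mem_iUnion.2 ⟨k, fun h3 => h2 (h3 i)⟩
  refine (measure_mono h1).trans ((measure_iUnion_le _).trans
    ((ENNReal.tsum_le_tsum fun k => h.close_prob hR (m + k)).trans (le_of_eq ?_)))
  have hs := (hasSum_geometric_of_lt_one (r := (3 / 4 : ℝ)) (by norm_num) (by norm_num)).mul_left
    (294912 * (R : ℝ) ^ 6 * (3 / 4) ^ m)
  simp_rw [pow_add, ← mul_assoc]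
  rw [← ENNReal.ofReal_tsum_of_nonneg (fun k => by positivity) hs.summable, hs.tsum_eq]
  congr 1
  ring

end Pool.Agent.MP_ba6658_pr.Three
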