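import Mathlib
import Pool.Agent.MP_ba6658_pr.Three.B

set_option autoImplicit false

open Finset Filter Topology MeasureTheory ProbabilityTheory Real
open scoped NNReal ENNReal

namespace Pool.Agent.MP_ba6658_pr.Three

variable {Ω : Type} [MeasurableSpace Ω] {P : Measure Ω} {W : Fin 3 → ℝ → ℝ → Ω → ℝ}

/-- The six numbers that vanish at a double zero. -/
def val (w : Fin 3 × ℕ × ℕ → ℝ) (p : ℕ × ℕ × ℕ) (j : Fin 3 × Bool) : ℝ :=
  if j.2 then w (j.1, p.1, p.2.2) - w (j.1, p.1, p.2.1) else w (j.1, p.1, p.2.1)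

/-- Gaussian mollifier of a double zero at a grid triple. -/
noncomputable def mol3 (η : ℝ) (w : Fin 3 × ℕ × ℕ → ℝ) (p : ℕ × ℕ × ℕ) : ℝ≥0∞ :=
  ∏ j, ENNReal.ofReal (exp (-(1 / η * val w p j ^ 2) / 2))

/-- The rectangles carrying the increments of `val` after time `a0`. -/
def rc (η : ℝ) (a0 : ℕ) (p : ℕ × ℕ × ℕ) (j : Fin 3 × Bool) : Rc :=
  (j.1, (a0 * η, p.1 * η), if j.2 then (p.2.1 * η, p.2.2 * η) else (0, p.2.1 * η))

/-- The grid values stopped at time `a`. -/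
def stop (a : ℕ) (w : Fin 3 × ℕ × ℕ → ℝ) (z : Fin 3 × ℕ × ℕ) : ℝ := w (z.1, min z.2.1 a, z.2.2)

lemma val_meas (p : ℕ × ℕ × ℕ) (j : Fin 3 × Bool) : Measurable (fun w => val w p j) := by
  unfold val
  split_ifs <;> fun_prop

lemma mol3_meas (η : ℝ) (p : ℕ × ℕ × ℕ) : Measurable (fun w => mol3 η w p) := by
  refine Finset.measurable_prod _ fun j _ => ?_
  have := val_meas p j
  fun_prop

lemma val_stop (w : Fin 3 × ℕ × ℕ → ℝ) (a : ℕ) (q : ℕ × ℕ) (j : Fin 3 × Bool) :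
    val (stop a w) (a, q) j = val w (a, q) j := by
  simp [val, stop]

lemma Sheet3.rect_rc (h : Sheet3 P W) (η : ℝ) (a0 : ℕ) (p : ℕ × ℕ × ℕ) (j : Fin 3 × Bool)
    (ω : Ω) : rect W (rc η a0 p j) ω = val (grid W η ω) p j - val (grid W η ω) (a0, p.2) j := by
  obtain ⟨i, _ | _⟩ := j
  · simp [rect, rc, val, grid, h.z2]
  · simp only [rect, rc, val, grid, if_true]
    ring

lemma rc_ok {η : ℝ} (hη : 0 < η) {a0 : ℕ} {p : ℕ × ℕ × ℕ} (h1 : a0 ≤ p.1)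
    (h2 : p.2.1 * η ≤ p.2.2 * η) (j : Fin 3 × Bool) : Ok (rc η a0 p j) := by
  have h3 : (a0 : ℝ) * η ≤ p.1 * η := mul_le_mul_of_nonneg_right (by exact_mod_cast h1) hη.le
  obtain ⟨i, _ | _⟩ := j
  · exact ⟨by simp only [rc]; positivity, h3, le_rfl, by simp [rc]; positivity⟩
  · exact ⟨by simp only [rc]; positivity, h3, by simp [rc]; positivity, h2⟩

lemma rc_dj (η : ℝ) (a0 : ℕ) (p : ℕ × ℕ × ℕ) (j l : Fin 3 × Bool) (h : j ≠ l) :
    Dj (rc η a0 p j) (rc η a0 p l) := by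
  obtain ⟨i, _ | _⟩ := j <;> obtain ⟨i', _ | _⟩ := l <;> simp_all [Dj, rc]

lemma rc_area {η δ R : ℝ} {a0 : ℕ} {p : ℕ × ℕ × ℕ} (h1 : δ ≤ p.2.1 * η)
    (h2 : p.2.1 * η + δ ≤ p.2.2 * η) (h3 : p.2.2 * η ≤ R) (hδ : 0 < δ) (j : Fin 3 × Bool) :
    ∃ t, δ ≤ t ∧ t ≤ R ∧ area (rc η a0 p j) = (p.1 * η - a0 * η) * t := by
  obtain ⟨i, _ | _⟩ := j
  · exact ⟨p.2.1 * η, h1, by linarith, by simp [area, rc]⟩
  · exact ⟨p.2.2 * η - p.2.1 * η, by linarith, by linarith, by simp [area, rc]⟩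

lemma prod_six {x : ℝ} (hx : 0 < x) : ∏ _j : Fin 3 × Bool, (√x)⁻¹ = (x ^ 3)⁻¹ := by
  rw [prod_const, card_univ, Fintype.card_prod, Fintype.card_fin, Fintype.card_bool, mul_comm,
    pow_mul, inv_pow, sq_sqrt hx.le, inv_pow]

lemma Sheet3.mol_upper [IsProbabilityMeasure P] (h : Sheet3 P W) {η δ : ℝ} (hη : 0 < η)
    (hδ : 0 < δ) {p : ℕ × ℕ × ℕ} (h0 : δ ≤ p.1 * η) (h1 : δ ≤ p.2.1 * η)
    (h2 : p.2.1 * η + δ ≤ p.2.2 * η) :
    ∫⁻ ω, mol3 η (grid W η ω) p ∂P ≤ ENNReal.ofReal ((η / δ ^ 2) ^ 3) := by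
  have h3 := h.prod_indep (rc η 0 p) (rc_ok hη (Nat.zero_le _) (by linarith)) (rc_dj η 0 p)
    (fun _ y => ENNReal.ofReal (exp (-(1 / η * y ^ 2) / 2))) (fun _ => by fun_prop)
  have e : ∀ ω j, rect W (rc η 0 p j) ω = val (grid W η ω) p j := by
    intro ω j
    rw [h.rect_rc]
    simp [val, grid, h.z1]
  simp only [e] at h3
  refine h3.trans_le ((prod_le_prod' (g := fun _ => ENNReal.ofReal (√(1 / η * δ ^ 2))⁻¹)
    fun j _ => ?_).trans (le_of_eq ?_))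
  · obtain ⟨t, t1, -, t3⟩ := rc_area (a0 := 0) h1 h2 le_rfl hδ j
    have h4 : δ ^ 2 ≤ area (rc η 0 p j) := by
      rw [t3]
      simp only [Nat.cast_zero, zero_mul, sub_zero]
      nlinarith
    refine (gauss_up (lt_of_lt_of_le (by positivity) h4) (by positivity)).trans
      (ENNReal.ofReal_le_ofReal (inv_anti₀ (by positivity) (sqrt_le_sqrt ?_)))
    exact mul_le_mul_of_nonneg_left h4 (by positivity)
  · rw [← ENNReal.ofReal_prod_of_nonneg (fun _ _ => by positivity), prod_six (by positivity)]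
    congr 1
    field_simp

/-- Lower bound for the conditional expectation of the mollifier. -/
noncomputable def low (R η δ : ℝ) (e : ℕ) (w : Fin 3 × ℕ × ℕ → ℝ) (p : ℕ × ℕ × ℕ) : ℝ :=
  ((6 * R * 2 ^ e) ^ 3)⁻¹ * exp (-((∑ j, val w p j ^ 2) / (2 ^ e * η * δ)))

lemma Sheet3.mol_cond [IsProbabilityMeasure P] (h : Sheet3 P W) {R η δ : ℝ} (hR : 1 ≤ R)
    (hη : 0 < η) (hδ : 0 < δ) {a α e : ℕ} (hα : α ∈ sh e) {q : ℕ × ℕ} (h1 : δ ≤ q.1 * η)
    (h2 : q.1 * η + δ ≤ q.2 * η) (h3 : q.2 * η ≤ 2 * R)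
    (F : (Fin 3 × ℕ × ℕ → ℝ) → ℝ≥0∞) (hF : Measurable F) :
    ∫⁻ ω, F (stop a (grid W η ω)) * ENNReal.ofReal (low R η δ e (grid W η ω) (a, q)) ∂P
      ≤ ∫⁻ ω, F (stop a (grid W η ω)) * mol3 η (grid W η ω) (a + α, q) ∂P := by
  have h4 := h.cond (fun z : Fin 3 × ℕ × ℕ =>
      (z.1, (0, (min z.2.1 a : ℕ) * η), (0, z.2.2 * η)))
    (fun z => ⟨le_rfl, by positivity, le_rfl, by positivity⟩) (rc η a (a + α, q))
    (rc_ok hη (Nat.le_add_right _ _) (by simp only; linarith)) (rc_dj η a _)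
    (fun z j => Or.inr (Or.inl (mul_le_mul_of_nonneg_right
      (by exact_mod_cast min_le_right _ _) hη.le))) F hF (fun j w => val w (a, q) j)
    (val_meas _) (fun y => ENNReal.ofReal (exp (-(1 / η * y ^ 2) / 2))) (by fun_prop)
  have e1 : ∀ ω, (fun z : Fin 3 × ℕ × ℕ =>
      rect W (z.1, (0, (min z.2.1 a : ℕ) * η), (0, z.2.2 * η)) ω) = stop a (grid W η ω) := by
    intro ω
    funext z
    simp only [rect, stop, grid, h.z1, h.z2, sub_zero, add_zero]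
  simp only [e1, val_stop, h.rect_rc, add_sub_cancel] at h4
  refine le_trans (lintegral_mono fun ω => mul_le_mul_right ?_ _) h4.symm.le
  obtain ⟨a1, a2⟩ := mem_Ico.1 hα
  have a3 : (2 : ℝ) ^ e ≤ α := by exact_mod_cast a1
  have a4 : (α : ℝ) ≤ 2 * 2 ^ e := by rw [← pow_succ']; exact_mod_cast a2.le
  have a5 : (1 : ℝ) ≤ 2 ^ e := one_le_pow₀ (by norm_num)
  refine le_trans (le_of_eq ?_) (prod_le_prod' (f := fun j => ENNReal.ofReal
    ((√(6 * R * 2 ^ e))⁻¹ * exp (-(val (grid W η ω) (a, q) j ^ 2 / (2 ^ e * η * δ)))))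
    fun j _ => ?_)
  · rw [← ENNReal.ofReal_prod_of_nonneg (fun _ _ => by positivity), prod_mul_distrib,
      prod_six (by positivity), ← exp_sum, sum_neg_distrib, ← sum_div]
    rfl
  · obtain ⟨t, t1, t2, t3⟩ := rc_area (a0 := a) (p := (a + α, q)) h1 h2 h3 hδ j
    have t4 : area (rc η a (a + α, q) j) = α * η * t := by rw [t3]; push_cast; ring
    have t5 : 2 ^ e * η * δ ≤ α * η * t :=
      mul_le_mul (mul_le_mul_of_nonneg_right a3 hη.le) t1 hδ.le (by positivity)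
    have t6 : 0 < α * η * t := lt_of_lt_of_le (by positivity) t5
    rw [t4]
    refine le_trans (ENNReal.ofReal_le_ofReal ?_) (gauss_shift t6 (by positivity) _)
    rw [div_eq_mul_inv (exp _), mul_comm]
    refine mul_le_mul (exp_le_exp.2 (neg_le_neg
      (div_le_div_of_nonneg_left (sq_nonneg _) (by positivity) t5)))
      (inv_anti₀ (by positivity) (sqrt_le_sqrt ?_)) (by positivity) (exp_pos _).le
    have t7 : 1 / η * (α * η * t) = α * t := by field_simp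
    have t8 : (α : ℝ) * t ≤ 2 * 2 ^ e * (2 * R) :=
      mul_le_mul a4 t2 (by linarith) (by positivity)
    rw [t7]
    nlinarith

/-- Approximate double zero at a grid triple. -/
def Az (ε : ℝ) (g : ℕ × ℕ × ℕ) (w : Fin 3 × ℕ × ℕ → ℝ) : Prop :=
  ∀ i, w (i, g.1, g.2.1) ^ 2 ≤ ε ∧ w (i, g.1, g.2.2) ^ 2 ≤ ε

/-- Scales and offsets. -/
def Lam (e0 n : ℕ) : Finset (Σ _ : Fin n, ℕ × ℕ × ℕ) :=
  univ.sigma fun k => sh (e0 + k) ×ˢ sh (e0 + k) ×ˢ sh (e0 + k)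

lemma low_sum {R η δ ε K : ℝ} (hR : 0 < R) (hη : 0 < η) (hδ : 0 < δ) {e0 n : ℕ}
    (hε : ε ≤ 2 ^ e0 * η) {g : ℕ × ℕ × ℕ} {w : Fin 3 × ℕ × ℕ → ℝ} (hz : Az ε g w)
    (h1 : ∀ i, Xi η e0 n w i g.1 g.2.1 ≤ K * n) (h2 : ∀ i, Xi η e0 n w i g.1 g.2.2 ≤ K * n) :
    n * (exp (-((30 + 36 * K) / δ)) / (6 * R) ^ 3) ≤ ∑ l ∈ Lam e0 n,
      low R η δ (e0 + l.1) w (g.1, g.2.1 + l.2.2.1, g.2.2 + l.2.2.2) := by
  set y0 := (30 + 36 * K) / δ with hy0
  set c := exp (-y0) / (6 * R) ^ 3 with hc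
  have hc0 : 0 < c := by positivity
  set B : Fin n → ℕ → ℕ → ℝ := fun k b β => ∑ i, (w (i, g.1, b + β) - w (i, g.1, b)) ^ 2
    / (2 ^ (e0 + k.1) * η) with hB
  have hpt : ∀ (k : Fin n) (β γ : ℕ), (1 / 2 ^ (e0 + k.1)) * ((1 / 2 ^ (e0 + k.1)) *
      ((1 / 2 ^ (e0 + k.1)) * (c * (1 + y0 - 30 / δ) - 6 * c / δ * B k g.2.1 β
        - 6 * c / δ * B k g.2.2 γ)))
      ≤ low R η δ (e0 + k) w (g.1, g.2.1 + β, g.2.2 + γ) := by
    intro k β γ
    set r : ℝ := 2 ^ (e0 + k.1) * η with hr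
    have hr0 : 0 < r := by positivity
    have hεr : ε ≤ r := hε.trans (mul_le_mul_of_nonneg_right
      (pow_le_pow_right₀ (by norm_num) (Nat.le_add_right _ _)) hη.le)
    set y := (∑ j, val w (g.1, g.2.1 + β, g.2.2 + γ) j ^ 2) / (r * δ) with hy
    have h3 : y ≤ (30 + 6 * B k g.2.1 β + 6 * B k g.2.2 γ) / δ := by
      rw [hy, ← div_div]
      refine div_le_div_of_nonneg_right ?_ hδ.le
      simp only [hB, ← hr]
      rw [← sum_div, ← sum_div, div_le_iff₀ hr0, add_mul, add_mul, mul_assoc, mul_assoc,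
        div_mul_cancel₀ _ hr0.ne', div_mul_cancel₀ _ hr0.ne', Fintype.sum_prod_type, mul_sum,
        mul_sum]
      have h4 : (30 : ℝ) * r = ∑ _i : Fin 3, 10 * r := by simp; ring
      rw [h4, ← sum_add_distrib, ← sum_add_distrib]
      refine sum_le_sum fun i _ => ?_
      obtain ⟨z1, z2⟩ := hz i
      simp only [Fintype.sum_bool, val, if_true, Bool.false_eq_true, if_false]
      set x1 := w (i, g.1, g.2.1)
      set x2 := w (i, g.1, g.2.2)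
      obtain ⟨u1, hu1⟩ : ∃ u, w (i, g.1, g.2.1 + β) = x1 + u := ⟨_, (add_sub_cancel _ _).symm⟩
      obtain ⟨u2, hu2⟩ : ∃ u, w (i, g.1, g.2.2 + γ) = x2 + u := ⟨_, (add_sub_cancel _ _).symm⟩
      rw [hu1, hu2]
      nlinarith [sq_nonneg (x1 - u1), sq_nonneg (x2 - u2), sq_nonneg (x1 + x2),
        sq_nonneg (x2 + u1), sq_nonneg (u2 + x1), sq_nonneg (u1 + u2), sq_nonneg u2]
    have h5 : exp (-y0) * (1 + y0 - y) ≤ exp (-y) := by
      have h6 := mul_le_mul_of_nonneg_left (add_one_le_exp (y0 - y)) (exp_pos (-y0)).le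
      rw [← exp_add, show -y0 + (y0 - y) = -y by ring] at h6
      linarith
    have h7 : c * (1 + y0 - 30 / δ) - 6 * c / δ * B k g.2.1 β - 6 * c / δ * B k g.2.2 γ
        ≤ exp (-y) / (6 * R) ^ 3 := by
      have h8 : c * (1 + y0 - 30 / δ) - 6 * c / δ * B k g.2.1 β - 6 * c / δ * B k g.2.2 γ
          = c * (1 + y0 - (30 + 6 * B k g.2.1 β + 6 * B k g.2.2 γ) / δ) := by ring
      rw [h8]
      refine (mul_le_mul_of_nonneg_left (show _ ≤ 1 + y0 - y by linarith) hc0.le).trans ?_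
      rw [hc, div_mul_eq_mul_div]
      exact div_le_div_of_nonneg_right h5 (by positivity)
    refine le_trans (mul_le_mul_of_nonneg_left (mul_le_mul_of_nonneg_left
      (mul_le_mul_of_nonneg_left h7 (by positivity)) (by positivity)) (by positivity))
      (le_of_eq ?_)
    unfold low
    rw [← hr, ← hy]
    field_simp
  refine le_trans ?_ (sum_le_sum fun l _ => hpt l.1 l.2.2.1 l.2.2.2)
  unfold Lam
  rw [sum_sigma]
  have hk : ∀ k : Fin n, ∑ s ∈ sh (e0 + k) ×ˢ sh (e0 + k) ×ˢ sh (e0 + k),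
      (1 / 2 ^ (e0 + k.1) : ℝ) * ((1 / 2 ^ (e0 + k.1)) *
      ((1 / 2 ^ (e0 + k.1)) * (c * (1 + y0 - 30 / δ) - 6 * c / δ * B k g.2.1 s.2.1
        - 6 * c / δ * B k g.2.2 s.2.2)))
      = c * (1 + y0 - 30 / δ)
        - 6 * c / δ * ∑ β ∈ sh (e0 + k), 1 / 2 ^ (e0 + k.1) * B k g.2.1 β
        - 6 * c / δ * ∑ β ∈ sh (e0 + k), 1 / 2 ^ (e0 + k.1) * B k g.2.2 β := by
    intro k
    have h0 := sum_sh (e0 + k)
    set p : ℝ := 1 / 2 ^ (e0 + k.1)
    set S := sh (e0 + k)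
    have h3 : (#S : ℝ) * p = 1 := by rw [← h0, sum_const, nsmul_eq_mul]
    simp only [sum_product, ← mul_sum, sum_sub_distrib, sum_const, nsmul_eq_mul, card_product,
      Nat.cast_mul]
    set x1 := ∑ i ∈ S, B k g.2.1 i
    set x2 := ∑ i ∈ S, B k g.2.2 i
    set u := c * (1 + y0 - 30 / δ)
    set v := 6 * c / δ
    set m : ℝ := (#S : ℝ)
    linear_combination (u * ((m * p) ^ 2 + m * p + 1) - v * p * (x1 + x2) * (m * p + 1)) * h3
  have hX : ∀ b, ∑ k : Fin n, ∑ β ∈ sh (e0 + k), 1 / 2 ^ (e0 + k.1) * B k b β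
      = ∑ i, Xi η e0 n w i g.1 b := by
    intro b
    simp only [hB, Xi, mul_sum]
    rw [sum_comm (s := univ) (t := univ)]
    exact sum_congr rfl fun k _ => sum_comm
  simp only [hk]
  rw [sum_sub_distrib, sum_sub_distrib, ← mul_sum (a := 6 * c / δ), ← mul_sum (a := 6 * c / δ),
    hX, hX, sum_const, card_univ, Fintype.card_fin, nsmul_eq_mul]
  have h3 : ∑ i, Xi η e0 n w i g.1 g.2.1 ≤ 3 * (K * n) :=
    (sum_le_sum fun i _ => h1 i).trans (by simp)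
  have h4 : ∑ i, Xi η e0 n w i g.1 g.2.2 ≤ 3 * (K * n) :=
    (sum_le_sum fun i _ => h2 i).trans (by simp)
  have h5 : 0 ≤ 6 * c / δ := by positivity
  have h6 := mul_le_mul_of_nonneg_left h3 h5
  have h7 := mul_le_mul_of_nonneg_left h4 h5
  have h8 : n * (c * (1 + y0 - 30 / δ)) = n * c + 2 * (6 * c / δ * (3 * (K * n))) := by
    rw [hy0]; ring
  linarith

end Pool.Agent.MP_ba6658_pr.Three
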