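import Mathlib
import Pool.Agent.MP_ba6658_pr.Three.C

set_option autoImplicit false

open Finset Filter Topology MeasureTheory ProbabilityTheory Real
open scoped NNReal ENNReal

namespace Pool.Agent.MP_ba6658_pr.Three

variable {Ω : Type} [MeasurableSpace Ω] {P : Measure Ω} {W : Fin 3 → ℝ → ℝ → Ω → ℝ}

/-- Admissible grid triples. -/
noncomputable def Gam (η δ δ' : ℝ) (N : ℕ) : Finset (ℕ × ℕ × ℕ) :=
  (range N ×ˢ range N ×ˢ range N).filter fun g =>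
    δ ≤ g.1 * η ∧ δ ≤ g.2.1 * η ∧ g.2.1 * η + δ' ≤ g.2.2 * η

lemma mem_Gam {η δ δ' : ℝ} {N : ℕ} {g : ℕ × ℕ × ℕ} : g ∈ Gam η δ δ' N ↔
    (g.1 < N ∧ g.2.1 < N ∧ g.2.2 < N) ∧
      δ ≤ g.1 * η ∧ δ ≤ g.2.1 * η ∧ g.2.1 * η + δ' ≤ g.2.2 * η := by
  simp [Gam]

lemma mem_Lam {e0 n : ℕ} {l : Σ _ : Fin n, ℕ × ℕ × ℕ} : l ∈ Lam e0 n ↔
    l.2.1 ∈ sh (e0 + l.1) ∧ l.2.2.1 ∈ sh (e0 + l.1) ∧ l.2.2.2 ∈ sh (e0 + l.1) := by
  simp [Lam]

lemma sh_lt {e0 n β : ℕ} {k : Fin n} (h : β ∈ sh (e0 + k)) : β < 2 ^ (e0 + n) :=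
  (mem_Ico.1 h).2.trans_le (Nat.pow_le_pow_right (by norm_num) (by omega))

lemma Sheet3.tot_upper [IsProbabilityMeasure P] (h : Sheet3 P W) {η δ R : ℝ} (hη : 0 < η)
    (hδ : 0 < δ) {N : ℕ} (hN : N * η ≤ R) :
    ∫⁻ ω, ∑ p ∈ Gam η δ δ N, mol3 η (grid W η ω) p ∂P ≤ ENNReal.ofReal ((R / δ ^ 2) ^ 3) := by
  rw [lintegral_finsetSum (f := fun p ω => mol3 η (grid W η ω) p) _
    fun p _ => (mol3_meas η p).comp (h.grid_meas hη)]
  refine (sum_le_sum fun p hp => h.mol_upper hη hδ (mem_Gam.1 hp).2.1 (mem_Gam.1 hp).2.2.1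
    (mem_Gam.1 hp).2.2.2).trans ?_
  rw [sum_const, nsmul_eq_mul, ← ENNReal.ofReal_natCast, ← ENNReal.ofReal_mul (by positivity)]
  refine ENNReal.ofReal_le_ofReal ?_
  have h1 : (#(Gam η δ δ N) : ℝ) ≤ N ^ 3 := by
    have h2 := card_filter_le (range N ×ˢ range N ×ˢ range N) fun g : ℕ × ℕ × ℕ =>
      δ ≤ g.1 * η ∧ δ ≤ g.2.1 * η ∧ g.2.1 * η + δ ≤ g.2.2 * η
    simp only [card_product, card_range] at h2
    have h3 : #(Gam η δ δ N) ≤ N ^ 3 := h2.trans (le_of_eq (by ring))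
    exact_mod_cast h3
  refine (mul_le_mul_of_nonneg_right h1 (by positivity)).trans ?_
  rw [← mul_pow, ← mul_div_assoc]
  exact pow_le_pow_left₀ (by positivity) (div_le_div_of_nonneg_right hN (by positivity)) 3

lemma shift_mem {η δ : ℝ} (hη : 0 < η) {N e0 n : ℕ} (hδ : 2 ^ (e0 + n) * η ≤ δ)
    {g : ℕ × ℕ × ℕ} (hg : g ∈ Gam η δ (2 * δ) N) {l : Σ _ : Fin n, ℕ × ℕ × ℕ}
    (hl : l ∈ Lam e0 n) :
    (g.1 + l.2.1, g.2.1 + l.2.2.1, g.2.2 + l.2.2.2) ∈ Gam η δ δ (N + 2 ^ (e0 + n)) := by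
  obtain ⟨⟨g1, g2, g3⟩, g4, g5, g6⟩ := mem_Gam.1 hg
  obtain ⟨l1, l2, l3⟩ := mem_Lam.1 hl
  have h1 := sh_lt l1
  have h2 := sh_lt l2
  have h3 := sh_lt l3
  have h4 : (l.2.2.1 : ℝ) * η ≤ 2 ^ (e0 + n) * η :=
    mul_le_mul_of_nonneg_right (by exact_mod_cast h2.le) hη.le
  have h5 : ∀ x : ℕ, 0 ≤ (x : ℝ) * η := fun x => by positivity
  refine mem_Gam.2 ⟨⟨by simp only; omega, by simp only; omega, by simp only; omega⟩, ?_, ?_, ?_⟩
  all_goals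
    simp only [Nat.cast_add, add_mul]
    linarith [h5 l.2.1, h5 l.2.2.1, h5 l.2.2.2]

lemma shift_sum {η δ : ℝ} (hη : 0 < η) {N e0 n : ℕ} (hδ : 2 ^ (e0 + n) * η ≤ δ)
    {g : ℕ × ℕ × ℕ} (hg : g ∈ Gam η δ (2 * δ) N) (f : ℕ × ℕ × ℕ → ℝ≥0∞) :
    ∑ l ∈ Lam e0 n, f (g.1 + l.2.1, g.2.1 + l.2.2.1, g.2.2 + l.2.2.2)
      ≤ ∑ p ∈ Gam η δ δ (N + 2 ^ (e0 + n)), f p := by
  rw [← sum_image (g := fun l : Σ _ : Fin n, ℕ × ℕ × ℕ =>
    (g.1 + l.2.1, g.2.1 + l.2.2.1, g.2.2 + l.2.2.2))]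
  · refine sum_le_sum_of_subset fun p hp => ?_
    obtain ⟨l, hl, rfl⟩ := mem_image.1 hp
    exact shift_mem hη hδ hg hl
  · rintro ⟨k, a, b, c⟩ hk ⟨k', a', b', c'⟩ hk' he
    simp only [Prod.mk.injEq, Nat.add_left_cancel_iff] at he
    obtain ⟨rfl, rfl, rfl⟩ := he
    have h1 := mem_Ico.1 (mem_Lam.1 hk).1
    have h2 := mem_Ico.1 (mem_Lam.1 hk').1
    have h3 := (Nat.pow_lt_pow_iff_right (by norm_num)).1 (h1.1.trans_lt h2.2)
    have h4 := (Nat.pow_lt_pow_iff_right (by norm_num)).1 (h2.1.trans_lt h1.2)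
    simp only at h3 h4
    obtain rfl : k = k' := Fin.ext (by omega)
    rfl

/-- Lexicographic position of a triple. -/
def key (g : ℕ × ℕ × ℕ) : ℕ ×ₗ ℕ ×ₗ ℕ := toLex (g.1, toLex g.2)

/-- The first approximate double zero occurs at `g`. -/
def Fst (ε : ℝ) (G : Finset (ℕ × ℕ × ℕ)) (g : ℕ × ℕ × ℕ) : Set (Fin 3 × ℕ × ℕ → ℝ) :=
  {w | Az ε g w ∧ ∀ g' ∈ G, key g' < key g → ¬ Az ε g' w}

lemma Az_meas (ε : ℝ) (g : ℕ × ℕ × ℕ) : Measurable (Az ε g) := by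
  unfold Az
  measurability

lemma Fst_meas (ε : ℝ) (G : Finset (ℕ × ℕ × ℕ)) (g : ℕ × ℕ × ℕ) :
    MeasurableSet (Fst ε G g) := by
  refine measurableSet_setOfPred.2 ((Az_meas ε g).and (Measurable.forall fun g' => ?_))
  exact measurable_const.imp (measurable_const.imp (Az_meas ε g').not)

lemma Az_stop {ε : ℝ} {g : ℕ × ℕ × ℕ} {a : ℕ} (h : g.1 ≤ a) (w : Fin 3 × ℕ × ℕ → ℝ) :
    Az ε g (stop a w) ↔ Az ε g w := by
  simp only [Az, stop, min_eq_left h]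

lemma Fst_stop (ε : ℝ) (G : Finset (ℕ × ℕ × ℕ)) (g : ℕ × ℕ × ℕ) (w : Fin 3 × ℕ × ℕ → ℝ) :
    stop g.1 w ∈ Fst ε G g ↔ w ∈ Fst ε G g := by
  refine and_congr (Az_stop le_rfl w) (forall₂_congr fun g' _ => imp_congr_right fun h => ?_)
  refine not_congr (Az_stop ?_ w)
  rcases Prod.Lex.toLex_lt_toLex.1 h with h | h
  exacts [le_of_lt h, le_of_eq h.1]

lemma Fst_sum (ε : ℝ) (G : Finset (ℕ × ℕ × ℕ)) (w : Fin 3 × ℕ × ℕ → ℝ) :
    ∑ g ∈ G, (Fst ε G g).indicator (1 : (Fin 3 × ℕ × ℕ → ℝ) → ℝ≥0∞) w ≤ 1 := by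
  by_cases h : ∃ g ∈ G, w ∈ Fst ε G g
  · obtain ⟨g, hg, hw⟩ := h
    rw [sum_eq_single_of_mem g hg, Set.indicator_of_mem hw, Pi.one_apply]
    refine fun g' hg' hne => Set.indicator_of_notMem (fun hw' => ?_) _
    rcases lt_trichotomy (key g') (key g) with h | h | h
    · exact hw.2 g' hg' h hw'.1
    · have h1 := toLex.injective h
      simp only [Prod.mk.injEq, EmbeddingLike.apply_eq_iff_eq] at h1
      exact hne (Prod.ext h1.1 h1.2)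
    · exact hw'.2 g hg h hw.1
  · rw [sum_eq_zero fun g hg => Set.indicator_of_notMem (fun hw => h ⟨g, hg, hw⟩) _]
    exact zero_le_one

lemma Fst_exists {ε : ℝ} {G : Finset (ℕ × ℕ × ℕ)} {w : Fin 3 × ℕ × ℕ → ℝ}
    (h : ∃ g ∈ G, Az ε g w) : ∃ g ∈ G, w ∈ Fst ε G g := by
  classical
  obtain ⟨g0, h0, h1⟩ := h
  obtain ⟨g, hg, h2⟩ := exists_min_image (G.filter fun g => Az ε g w) key
    ⟨g0, mem_filter.2 ⟨h0, h1⟩⟩
  exact ⟨g, (mem_filter.1 hg).1, (mem_filter.1 hg).2, fun g' hg' h3 h4 =>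
    (h2 g' (mem_filter.2 ⟨hg', h4⟩)).not_gt h3⟩

lemma low_meas (R η δ : ℝ) (e : ℕ) (p : ℕ × ℕ × ℕ) :
    Measurable (fun w => ENNReal.ofReal (low R η δ e w p)) := by
  have := Finset.measurable_sum univ fun j _ => (val_meas p j).pow_const 2
  unfold low
  fun_prop

lemma Sheet3.hit_prob [IsProbabilityMeasure P] (h : Sheet3 P W) {R η δ ε : ℝ} (hR : 1 ≤ R)
    (hη : 0 < η) {e0 n N : ℕ} (h1 : 2 ^ (e0 + n) * η ≤ δ) (h2 : δ ≤ R) (hN : N * η ≤ R)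
    (hε : ε ≤ 2 ^ e0 * η) :
    ENNReal.ofReal (n * (exp (-((30 + 36 * (98304 * R)) / δ)) / (6 * R) ^ 3)) *
      P {ω | (∃ g ∈ Gam η δ (2 * δ) N, Az ε g (grid W η ω)) ∧ Good3 R η e0 n N (grid W η ω)}
      ≤ ENNReal.ofReal ((2 * R / δ ^ 2) ^ 3) := by
  have hδ : 0 < δ := lt_of_lt_of_le (by positivity) h1
  set G := Gam η δ (2 * δ) N with hG
  set F : ℕ × ℕ × ℕ → (Fin 3 × ℕ × ℕ → ℝ) → ℝ≥0∞ := fun g => (Fst ε G g).indicator 1 with hF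
  have hFm : ∀ g, Measurable (F g) := fun g => measurable_one.indicator (Fst_meas ε G g)
  have hFs : ∀ g w, F g (stop g.1 w) = F g w := fun g w => by
    by_cases hw : w ∈ Fst ε G g
    · simp only [hF, Set.indicator_of_mem hw, Set.indicator_of_mem ((Fst_stop ε G g w).2 hw),
        Pi.one_apply]
    · simp only [hF, Set.indicator_of_notMem hw,
        Set.indicator_of_notMem (mt (Fst_stop ε G g w).1 hw)]
  have hg := h.grid_meas hη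
  have hN' : ((N + 2 ^ (e0 + n) : ℕ) : ℝ) * η ≤ 2 * R := by push_cast; linarith
  set H : Ω → ℝ≥0∞ := fun ω => ∑ g ∈ G, ∑ l ∈ Lam e0 n, F g (grid W η ω) * ENNReal.ofReal
    (low R η δ (e0 + l.1) (grid W η ω) (g.1, g.2.1 + l.2.2.1, g.2.2 + l.2.2.2)) with hH
  have hm1 : ∀ g e p, Measurable fun ω => F g (grid W η ω) * ENNReal.ofReal
      (low R η δ e (grid W η ω) p) := fun g e p => ((hFm g).mul (low_meas R η δ e p)).comp hg
  have hm2 : ∀ g p, Measurable fun ω => F g (grid W η ω) * mol3 η (grid W η ω) p :=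
    fun g p => ((hFm g).mul (mol3_meas η p)).comp hg
  have hHm : Measurable H :=
    Finset.measurable_sum _ fun g _ => Finset.measurable_sum _ fun l _ => hm1 _ _ _
  refine le_trans (mul_le_mul_right (measure_mono fun ω hω => ?_) _)
    ((mul_meas_ge_le_lintegral₀ hHm.aemeasurable _).trans (le_trans ?_ (h.tot_upper hη hδ hN')))
  · obtain ⟨g, g1, g2⟩ := Fst_exists hω.1
    obtain ⟨⟨g3, g4, g5⟩, -⟩ := mem_Gam.1 g1
    have h3 := low_sum (by linarith : 0 < R) hη hδ hε g2.1 (fun i => hω.2 i _ g3 _ g4)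
      (fun i => hω.2 i _ g3 _ g5)
    refine le_trans ?_ (single_le_sum (f := fun g => ∑ l ∈ Lam e0 n, F g (grid W η ω) *
      ENNReal.ofReal (low R η δ (e0 + l.1) (grid W η ω) (g.1, g.2.1 + l.2.2.1, g.2.2 + l.2.2.2)))
      (fun _ _ => zero_le) g1)
    simp only [hF, Set.indicator_of_mem g2, Pi.one_apply, one_mul]
    rw [← ENNReal.ofReal_sum_of_nonneg fun l _ => by unfold low; positivity]
    exact ENNReal.ofReal_le_ofReal h3
  · have h3 : ∫⁻ ω, H ω ∂P ≤ ∫⁻ ω, ∑ g ∈ G, ∑ l ∈ Lam e0 n, F g (grid W η ω) *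
        mol3 η (grid W η ω) (g.1 + l.2.1, g.2.1 + l.2.2.1, g.2.2 + l.2.2.2) ∂P := by
      rw [lintegral_finsetSum _ fun g _ => Finset.measurable_sum _ fun l _ => hm1 _ _ _,
        lintegral_finsetSum _ fun g _ => Finset.measurable_sum _ fun l _ => hm2 _ _]
      refine sum_le_sum fun g g1 => ?_
      rw [lintegral_finsetSum _ fun l _ => hm1 _ _ _, lintegral_finsetSum _ fun l _ => hm2 _ _]
      refine sum_le_sum fun l hl => ?_
      obtain ⟨⟨-, -, g3⟩, -, g4, g5⟩ := mem_Gam.1 (shift_mem hη h1 g1 hl)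
      have h4 := h.mol_cond hR hη hδ (a := g.1) (mem_Lam.1 hl).1
        (q := (g.2.1 + l.2.2.1, g.2.2 + l.2.2.2)) g4 g5
        (le_trans (mul_le_mul_of_nonneg_right (by exact_mod_cast g3.le) hη.le) hN') (F g) (hFm g)
      simpa only [hFs] using h4
    refine h3.trans (lintegral_mono fun ω => ?_)
    simp only [← mul_sum]
    refine (sum_le_sum fun g g1 => mul_le_mul_right (shift_sum hη h1 g1 _) _).trans ?_
    rw [← sum_mul]
    exact mul_le_of_le_one_left' (Fst_sum ε G _)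

end Pool.Agent.MP_ba6658_pr.Three
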