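import Mathlib
import Pool.Agent.MP_ba6658_pr.Three.D
import Pool.Agent.MP_ba6658_pr.Log.D

set_option autoImplicit false

open Finset Filter Topology MeasureTheory ProbabilityTheory Real
open scoped NNReal ENNReal

namespace Pool.Agent.MP_ba6658_pr.Three

variable {Ω : Type} [MeasurableSpace Ω] {P : Measure Ω} {W : Fin 3 → ℝ → ℝ → Ω → ℝ}

lemma eps_le {j : ℕ} (hj : 15 ≤ j) :
    (14 * (7 / 8 : ℝ) ^ (4 * j)) ^ 2 ≤ 2 ^ (3 * j) * (1 / 2 ^ (4 * j)) := by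
  have h1 : (2 : ℝ) ^ (3 * j) * (1 / 2 ^ (4 * j)) = (1 / 2) ^ j := by
    rw [pow_mul, pow_mul, mul_one_div, ← div_pow]; norm_num
  have h2 : (14 * (7 / 8 : ℝ) ^ (4 * j)) ^ 2 = 196 * (2 * (7 / 8) ^ 8) ^ j * (1 / 2) ^ j := by
    rw [mul_assoc, ← mul_pow, mul_pow, ← pow_mul, show 4 * j * 2 = 8 * j by ring, pow_mul]
    norm_num
  have h3 : (2 * (7 / 8 : ℝ) ^ 8) ^ j ≤ (2 * (7 / 8) ^ 8) ^ 15 :=
    pow_le_pow_of_le_one (by positivity) (by norm_num) hj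
  have h4 : 196 * (2 * (7 / 8 : ℝ) ^ 8) ^ 15 ≤ 1 := by norm_num
  rw [h1, h2]
  exact mul_le_of_le_one_left (by positivity) (by linarith)

lemma Sheet3.box_bound [IsProbabilityMeasure P] (h : Sheet3 P W)
    (hc : ∀ i ω s t, 0 < s → 0 < t → ContinuousAt (fun z : ℝ × ℝ => W i z.1 z.2 ω) (s, t))
    {k R : ℕ} (hk : 15 ≤ k) (hR : 1 ≤ R) : ∃ C : ℝ, ∀ n : ℕ, 1 ≤ n →
    P {ω | ∃ s t1 t2 : ℝ, 3 / 2 ^ k ≤ s ∧ s ≤ R ∧ 3 / 2 ^ k ≤ t1 ∧ t1 + 3 / 2 ^ k ≤ t2 ∧ t2 ≤ R ∧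
      ∀ i, W i s t1 ω = 0 ∧ W i s t2 ω = 0}
      ≤ ENNReal.ofReal (C / n + 3 * ((R + 1) * 16 ^ k) ^ 2 * (1 / 2) ^ n
        + 4 * 294912 * R ^ 6 * (3 / 4) ^ n) := by
  set δ : ℝ := 1 / 2 ^ k with hδ
  have hδ0 : 0 < δ := by positivity
  have hδ1 : δ ≤ 1 := by rw [hδ, div_le_one (by positivity)]; exact one_le_pow₀ (by norm_num)
  have hR' : (1 : ℝ) ≤ R := by exact_mod_cast hR
  set c : ℝ := exp (-((30 + 36 * (98304 * ((R : ℝ) + 1))) / δ)) / (6 * ((R : ℝ) + 1)) ^ 3 with hcd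
  have hc0 : 0 < c := by positivity
  refine ⟨(2 * ((R : ℝ) + 1) / δ ^ 2) ^ 3 / c, fun n hn => ?_⟩
  have hn' : (0 : ℝ) < n := by exact_mod_cast hn
  set m := 4 * (n + k) with hm
  set η : ℝ := 1 / 2 ^ m with hη
  have hη0 : 0 < η := by positivity
  have h1 : 2 ^ (3 * (n + k) + n) * η = δ := by
    rw [hη, hδ, hm, show 4 * (n + k) = 3 * (n + k) + n + k by ring, pow_add _ _ k]
    field_simp
  have h2 : η ≤ δ := h1 ▸ le_mul_of_one_le_left hη0.le (one_le_pow₀ (by norm_num))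
  have h3 : 2 ^ m * η = 1 := by rw [hη]; field_simp
  set N := R * 2 ^ m + 1 with hN
  have h4 : N * η ≤ (R : ℝ) + 1 := by
    rw [hN]; push_cast; rw [add_mul, mul_assoc, h3]; linarith
  have p1 := h.hit_prob (R := R + 1) (by linarith) hη0 h1.le (by linarith) h4
    (eps_le (hk.trans (Nat.le_add_left k n)))
  have p2 := h.good_prob (R := R + 1) (by linarith) hη0 (3 * (n + k)) n h4
  have p3 := h.mod_prob hR m
  rw [← hcd, mul_comm, ← ENNReal.le_div_iff_mul_le (Or.inl (ENNReal.ofReal_pos.2 (by positivity)).ne')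
    (Or.inl ENNReal.ofReal_ne_top), ← ENNReal.ofReal_div_of_pos (by positivity)] at p1
  refine (measure_mono (t := (_ ∪ _) ∪ _) fun ω hω => ?_).trans ((measure_union_le _ _).trans
    ((add_le_add ((measure_union_le _ _).trans (add_le_add p1 p2)) p3).trans ?_))
  · obtain ⟨s, t1, t2, a1, a2, a3, a4, a5, a6⟩ := hω
    have e3 : (3 : ℝ) / 2 ^ k = 3 * δ := by rw [hδ]; ring
    rw [e3] at a1 a3 a4
    by_contra hx
    simp only [Set.mem_union, Set.mem_ofPred_eq, not_or, not_not, not_and'] at hx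
    obtain ⟨⟨x1, x2⟩, x3⟩ := hx
    have f1 : ∀ u : ℝ, 0 ≤ u → ⌊u * 2 ^ m⌋₊ * η ≤ u := fun u hu => by
      have := mul_le_mul_of_nonneg_right (Nat.floor_le (show 0 ≤ u * 2 ^ m by positivity)) hη0.le
      rwa [mul_assoc, h3, mul_one] at this
    have f2 : ∀ u : ℝ, u ≤ ⌊u * 2 ^ m⌋₊ * η + η := fun u => by
      have := mul_le_mul_of_nonneg_right (Nat.lt_floor_add_one (u * 2 ^ m)).le hη0.le
      rwa [mul_assoc, h3, mul_one, add_mul, one_mul] at this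
    have f3 : ∀ i (t : ℝ), 0 < t → t ≤ R → W i s t ω = 0 →
        grid W η ω (i, ⌊s * 2 ^ m⌋₊, ⌊t * 2 ^ m⌋₊) ^ 2 ≤ (14 * (7 / 8 : ℝ) ^ m) ^ 2 := by
      intro i t ht ht' hz
      have := chain (f := fun s t => W i s t ω) (x3 i) (by linarith) a2 ht.le ht'
        (hc i ω s t (by linarith) ht)
      simp only [hz, zero_sub, abs_neg] at this
      rw [← sq_abs]
      simp only [grid, hη, mul_one_div]
      exact pow_le_pow_left₀ (abs_nonneg _) this 2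
    refine x1 x2 ⟨(⌊s * 2 ^ m⌋₊, ⌊t1 * 2 ^ m⌋₊, ⌊t2 * 2 ^ m⌋₊), mem_Gam.2 ⟨⟨Nat.lt_succ_of_le
      (floor_le_box a2 m), Nat.lt_succ_of_le (floor_le_box (by linarith) m),
      Nat.lt_succ_of_le (floor_le_box a5 m)⟩, ?_, ?_, ?_⟩, fun i => ⟨f3 i t1 (by linarith)
      (by linarith) (a6 i).1, f3 i t2 (by linarith) a5 (a6 i).2⟩⟩
    all_goals
      simp only
      linarith [f2 s, f2 t1, f2 t2, f1 t1 (by linarith)]
  · rw [← ENNReal.ofReal_add (by positivity) (by positivity),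
      ← ENNReal.ofReal_add (by positivity) (by positivity)]
    refine ENNReal.ofReal_le_ofReal (add_le_add (add_le_add (le_of_eq ?_) ?_) ?_)
    · field_simp
    · have h5 : (N : ℝ) ≤ (R + 1) * 16 ^ k * 16 ^ n := by
        have h6 : (2 : ℝ) ^ m = 16 ^ k * 16 ^ n := by
          rw [hm, pow_mul, pow_add, mul_comm]; norm_num
        have h7 := mul_le_mul_of_nonneg_right h4 (show (0 : ℝ) ≤ 2 ^ m by positivity)
        rwa [mul_assoc, mul_comm η, h3, mul_one, h6, ← mul_assoc] at h7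
      have h6 : ((16 : ℝ) ^ n) ^ 2 * (1 / 512) ^ n = (1 / 2) ^ n := by
        rw [← pow_mul, mul_comm n, pow_mul, ← mul_pow]; norm_num
      calc 3 * (N : ℝ) ^ 2 * (1 / 512) ^ n ≤ 3 * ((R + 1) * 16 ^ k * 16 ^ n) ^ 2 * (1 / 512) ^ n := by
            gcongr
        _ = _ := by rw [mul_pow _ (16 ^ n), ← h6]; ring
    · exact mul_le_mul_of_nonneg_left
        (pow_le_pow_of_le_one (by norm_num) (by norm_num) (by omega)) (by positivity)

lemma Sheet3.one [IsProbabilityMeasure P] (h : Sheet3 P W)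
    (hc : ∀ i ω s t, 0 < s → 0 < t → ContinuousAt (fun z : ℝ × ℝ => W i z.1 z.2 ω) (s, t)) :
    ∀ᵐ ω ∂P, ∀ s : ℝ, 0 < s → Set.Subsingleton {t : ℝ | 0 < t ∧ ∀ i, W i s t ω = 0} := by
  have h1 : ∀ k : ℕ, ∀ᵐ ω ∂P, ¬ ∃ s t1 t2 : ℝ, 3 / 2 ^ (k + 15) ≤ s ∧ s ≤ (k + 1 : ℕ) ∧
      3 / 2 ^ (k + 15) ≤ t1 ∧ t1 + 3 / 2 ^ (k + 15) ≤ t2 ∧ t2 ≤ (k + 1 : ℕ) ∧
      ∀ i, W i s t1 ω = 0 ∧ W i s t2 ω = 0 := by
    intro k
    obtain ⟨C, hC⟩ := h.box_bound hc (Nat.le_add_left 15 k) (Nat.le_add_left 1 k)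
    have h2 := ENNReal.tendsto_ofReal (((tendsto_const_div_atTop_nhds_zero_nat C).add
      ((tendsto_pow_atTop_nhds_zero_of_lt_one (r := (1 / 2 : ℝ)) (by norm_num)
        (by norm_num)).const_mul (3 * ((((k + 1 : ℕ) : ℝ) + 1) * 16 ^ (k + 15)) ^ 2))).add
      ((tendsto_pow_atTop_nhds_zero_of_lt_one (r := (3 / 4 : ℝ)) (by norm_num)
        (by norm_num)).const_mul (4 * 294912 * ((k + 1 : ℕ) : ℝ) ^ 6)))
    have h3 := ge_of_tendsto h2 (eventually_atTop.2 ⟨1, hC⟩)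
    simp only [mul_zero, add_zero, ENNReal.ofReal_zero, nonpos_iff_eq_zero] at h3
    exact measure_eq_zero_iff_ae_notMem.1 h3
  filter_upwards [ae_all_iff.2 h1] with ω hω s hs
  have h2 : ∀ t1 t2 : ℝ, 0 < t1 → t1 < t2 → (∀ i, W i s t1 ω = 0) → ¬ ∀ i, W i s t2 ω = 0 := by
    intro t1 t2 a1 a2 a3 a4
    have l1 : Tendsto (fun k : ℕ => (3 : ℝ) / 2 ^ (k + 15)) atTop (𝓝 0) :=
      tendsto_const_nhds.div_atTop ((tendsto_pow_atTop_atTop_of_one_lt (by norm_num)).comp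
        (tendsto_add_atTop_nat 15))
    have l2 : Tendsto (fun k : ℕ => ((k + 1 : ℕ) : ℝ)) atTop atTop :=
      tendsto_natCast_atTop_atTop.comp (tendsto_add_atTop_nat 1)
    obtain ⟨k, ⟨⟨⟨⟨b1, b2⟩, b3⟩, b4⟩, b5⟩⟩ := (((((l1.eventually_le_const hs).and
      (l2.eventually_ge_atTop s)).and (l1.eventually_le_const a1)).and
      (l1.eventually_le_const (sub_pos.2 a2))).and (l2.eventually_ge_atTop t2)).exists
    exact hω k ⟨s, t1, t2, b1, b2, b3, by linarith, b5, fun i => ⟨a3 i, a4 i⟩⟩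
  intro t1 a1 t2 a2
  rcases lt_trichotomy t1 t2 with h3 | h3 | h3
  exacts [absurd a2.2 (h2 _ _ a1.1 h3 a1.2), h3, absurd a1.2 (h2 _ _ a2.1 h3 a2.2)]

theorem main_meas (Ω : Type) [MeasurableSpace Ω] (P : Measure Ω) [IsProbabilityMeasure P]
    (B : Fin 3 → ℝ → ℝ → Ω → ℝ) (hm : ∀ i s t, 0 ≤ s → 0 ≤ t → Measurable (B i s t))
    (hc : ∀ (i : Fin 3) (ω : Ω),
      ContinuousOn (fun p : ℝ × ℝ => B i p.1 p.2 ω) {p : ℝ × ℝ | 0 ≤ p.1 ∧ 0 ≤ p.2})
    (hl : ∀ (n : ℕ) (idx : Fin n → Fin 3) (s t c : Fin n → ℝ),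
      (∀ k, 0 ≤ s k) → (∀ k, 0 ≤ t k) →
      P.map (fun ω => ∑ k, c k * B (idx k) (s k) (t k) ω) =
        gaussianReal 0
          (∑ k, ∑ l, (if idx k = idx l then
            c k * c l * (min (s k) (s l) * min (t k) (t l)) else 0)).toNNReal) :
    ∀ᵐ ω ∂P, ∀ s : ℝ, 0 < s → Set.Subsingleton {t : ℝ | 0 < t ∧ ∀ i, B i s t ω = 0} := by
  set κ : ℝ → ℝ := fun t => if 0 < t then 1 else 0 with hκ
  have hk : ∀ a b : ℝ, 0 ≤ a → 0 ≤ b → κ a * κ b * min a b = min a b := by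
    intro a b ha hb
    simp only [hκ]
    split_ifs with h1 h2
    · simp
    · rw [le_antisymm (not_lt.1 h2) hb, min_eq_right ha]; simp
    · rw [le_antisymm (not_lt.1 h1) ha, min_eq_left hb]; simp
    · rw [le_antisymm (not_lt.1 h1) ha, min_eq_left hb]; simp
  have hS : Sheet3 P (fun i s t ω => κ s * κ t * B i s t ω) := by
    refine ⟨fun i s t hs ht => (hm i s t hs ht).const_mul _, ?_, fun i t ω => by simp [hκ],
      fun i s ω => by simp [hκ]⟩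
    intro J _ idx s t c hs ht
    set e := (Fintype.equivFin J).symm with he
    have h := hl (Fintype.card J) (fun k => idx (e k)) (fun k => s (e k))
      (fun k => t (e k)) (fun k => c (e k) * (κ (s (e k)) * κ (t (e k))))
      (fun k => hs _) (fun k => ht _)
    convert h using 2
    · funext ω
      rw [← e.sum_comp]
      exact sum_congr rfl fun k _ => by ring
    · rw [← e.sum_comp]
      congr 1
      refine sum_congr rfl fun k _ => ?_
      rw [← e.sum_comp]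
      refine sum_congr rfl fun l _ => ?_
      split_ifs with hkl
      · conv_lhs => rw [← hk _ _ (ht (e k)) (ht (e l)), ← hk _ _ (hs (e k)) (hs (e l))]
        ring
      · rfl
  refine (hS.one fun i ω s t hs ht => ?_).mono fun ω hω s hs => ?_
  swap
  · refine (hω s hs).anti fun t ht => ⟨ht.1, fun i => ?_⟩
    rw [ht.2 i, mul_zero]
  · have hn : {p : ℝ × ℝ | 0 < p.1 ∧ 0 < p.2} ∈ 𝓝 (s, t) :=
      ((isOpen_lt continuous_const continuous_fst).inter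
        (isOpen_lt continuous_const continuous_snd)).mem_nhds ⟨hs, ht⟩
    refine ((hc i ω).continuousAt (mem_of_superset hn fun p hp => ⟨hp.1.le, hp.2.le⟩)).congr ?_
    filter_upwards [hn] with p hp
    simp [hκ, hp.1, hp.2]

theorem main (Ω : Type) [MeasurableSpace Ω] (P : Measure Ω) [IsProbabilityMeasure P]
    (B : Fin 3 → ℝ → ℝ → Ω → ℝ)
    (hc : ∀ (i : Fin 3) (ω : Ω),
      ContinuousOn (fun p : ℝ × ℝ => B i p.1 p.2 ω) {p : ℝ × ℝ | 0 ≤ p.1 ∧ 0 ≤ p.2})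
    (hl : ∀ (n : ℕ) (idx : Fin n → Fin 3) (s t c : Fin n → ℝ),
      (∀ k, 0 ≤ s k) → (∀ k, 0 ≤ t k) →
      P.map (fun ω => ∑ k, c k * B (idx k) (s k) (t k) ω) =
        gaussianReal 0
          (∑ k, ∑ l, (if idx k = idx l then
            c k * c l * (min (s k) (s l) * min (t k) (t l)) else 0)).toNNReal) :
    ∀ᵐ ω ∂P, ∀ s : ℝ, 0 < s → Set.Subsingleton {t : ℝ | 0 < t ∧ ∀ i, B i s t ω = 0} := by
  obtain ⟨G, hG, hGm⟩ := Log.modification P B hc (fun i s t hs ht => by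
    have h := hl 1 (fun _ => i) (fun _ => s) (fun _ => t) (fun _ => 1) (fun _ => hs) (fun _ => ht)
    simp only [Fin.sum_univ_one, one_mul] at h
    by_contra hn
    rw [Measure.map_of_not_aemeasurable hn] at h
    exact IsProbabilityMeasure.ne_zero _ h.symm)
  have h := main_meas Ω P (fun i s t => G.indicator (B i s t)) hGm
    (fun i ω => by
      by_cases h : ω ∈ G
      · simp only [Set.indicator_of_mem h]; exact hc i ω
      · simp only [Set.indicator_of_notMem h]; exact continuousOn_const)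
    (fun n idx s t c hs ht => by
      rw [← hl n idx s t c hs ht]
      refine Measure.map_congr ?_
      filter_upwards [hG] with ω hω
      simp only [Set.indicator_of_mem hω])
  filter_upwards [h, hG] with ω hω hω'
  simpa only [Set.indicator_of_mem hω'] using hω

end Pool.Agent.MP_ba6658_pr.Three
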